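import Mathlib

/-!
# Split closures and convex covers of cubes
-/

set_option autoImplicit false

namespace Pool.Agent.T9h88.BB

open Finset

variable {E : Type} [Fintype E]

/-- one round of all split cuts -/
def splitCl (K : Set (E → ℝ)) : Set (E → ℝ) :=
  {x | ∀ (a : E → ℤ) (b : ℤ), x ∈ convexHull ℝ
    ({y | y ∈ K ∧ ∑ e, (a e : ℝ) * y e ≤ b} ∪ {y | y ∈ K ∧ (b : ℝ) + 1 ≤ ∑ e, (a e : ℝ) * y e})}

/-- flip the bits in `T` -/
def fl {m : ℕ} (u : Fin m → Bool) (T : Finset (Fin m)) : Fin m → Bool :=
  fun i => if i ∈ T then !(u i) else u i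

/-- the middle of two vectors -/
noncomputable def mid {m : ℕ} (z : (Fin m → Bool) → E → ℤ) (u v : Fin m → Bool) : E → ℝ :=
  fun e => ((z u e : ℝ) + z v e) / 2

/-- every coordinate depends on one bit -/
def OneBit {m : ℕ} (z : (Fin m → Bool) → E → ℤ) : Prop :=
  ∀ e, ∃ j, ∀ u v : Fin m → Bool, u j = v j → z u e = z v e

omit [Fintype E] in
theorem para {m : ℕ} {z : (Fin m → Bool) → E → ℤ} (hz : OneBit z) (u : Fin m → Bool)
    (T : Finset (Fin m)) {i : Fin m} (hi : i ∈ T) (e : E) :
    z u e + z (fl u T) e = z (fl u {i}) e + z (fl u (T.erase i)) e := by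
  obtain ⟨j, hj⟩ := hz e
  by_cases hij : j = i
  · subst hij
    have h1 : z u e = z (fl u (T.erase j)) e := hj _ _ (by simp [fl])
    have h2 : z (fl u T) e = z (fl u {j}) e := hj _ _ (by simp [fl, hi])
    rw [h1, h2, add_comm]
  · have h1 : z u e = z (fl u {i}) e := hj _ _ (by simp [fl, hij])
    have h2 : z (fl u T) e = z (fl u (T.erase i)) e := hj _ _ (by simp [fl, hij])
    rw [h1, h2]

/-- the value of an integral functional -/
def val {m : ℕ} (z : (Fin m → Bool) → E → ℤ) (a : E → ℤ) (u : Fin m → Bool) : ℤ :=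
  ∑ e, a e * z u e

theorem val_para {m : ℕ} {z : (Fin m → Bool) → E → ℤ} (hz : OneBit z) (a : E → ℤ)
    (u : Fin m → Bool) (T : Finset (Fin m)) {i : Fin m} (hi : i ∈ T) :
    val z a u + val z a (fl u T) = val z a (fl u {i}) + val z a (fl u (T.erase i)) := by
  unfold val
  rw [← sum_add_distrib, ← sum_add_distrib]
  refine sum_congr rfl fun e _ => ?_
  rw [← mul_add, ← mul_add, para hz u T hi e]

theorem fl_empty {m : ℕ} (u : Fin m → Bool) : fl u ∅ = u := by
  funext i; simp [fl]

theorem exists_odd {m : ℕ} {z : (Fin m → Bool) → E → ℤ} (hz : OneBit z) (a : E → ℤ)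
    (u : Fin m → Bool) (T : Finset (Fin m)) (h : (val z a (fl u T) - val z a u) % 2 = 1) :
    ∃ i ∈ T, (val z a (fl u {i}) - val z a u) % 2 = 1 := by
  induction T using Finset.induction_on with
  | empty => rw [fl_empty] at h; simp at h
  | insert i T hi ih =>
    by_cases h1 : (val z a (fl u {i}) - val z a u) % 2 = 1
    · exact ⟨i, mem_insert_self _ _, h1⟩
    · have h2 := val_para hz a u (insert i T) (mem_insert_self i T)
      rw [erase_insert hi] at h2
      obtain ⟨j, hj, h3⟩ := ih (by omega)
      exact ⟨j, mem_insert_of_mem hj, h3⟩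

theorem sum_mid {m : ℕ} (z : (Fin m → Bool) → E → ℤ) (a : E → ℤ) (u v : Fin m → Bool) :
    ∑ e, (a e : ℝ) * mid z u v e = ((val z a u : ℝ) + val z a v) / 2 := by
  unfold mid val
  push_cast
  rw [← sum_add_distrib, sum_div]
  refine sum_congr rfl fun e _ => by ring

theorem fl_fl {m : ℕ} (u : Fin m → Bool) (T : Finset (Fin m)) {i : Fin m} (hi : i ∈ T) :
    fl (fl u {i}) (T.erase i) = fl u T := by
  funext j
  by_cases hj : j = i
  · subst hj; simp [fl, hi]
  · simp [fl, hj]

/-- Middle points of far vertices survive many rounds of split cuts. -/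
theorem protect {m w : ℕ} {z : (Fin m → Bool) → E → ℤ} (hz : OneBit z) (K : Set (E → ℝ))
    (hK : ∀ u T, w ≤ T.card → mid z u (fl u T) ∈ K) (r : ℕ) :
    ∀ u T, r + w ≤ T.card → mid z u (fl u T) ∈ splitCl^[r] K := by
  induction r with
  | zero => intro u T hT; exact hK u T (by omega)
  | succ r ih =>
    intro u T hT
    rw [Function.iterate_succ_apply']
    intro a b
    have h0 : mid z u (fl u T) ∈ splitCl^[r] K := ih u T (by omega)
    have hs := sum_mid z a u (fl u T)
    by_cases hb1 : ∑ e, (a e : ℝ) * mid z u (fl u T) e ≤ b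
    · exact subset_convexHull ℝ _ (Or.inl ⟨h0, hb1⟩)
    by_cases hb2 : (b : ℝ) + 1 ≤ ∑ e, (a e : ℝ) * mid z u (fl u T) e
    · exact subset_convexHull ℝ _ (Or.inr ⟨h0, hb2⟩)
    rw [hs] at hb1 hb2
    push Not at hb1 hb2
    have h1 : 2 * b < val z a u + val z a (fl u T) := by
      have : ((2 * b : ℤ) : ℝ) < ((val z a u + val z a (fl u T) : ℤ) : ℝ) := by
        push_cast; linarith
      exact_mod_cast this
    have h2 : val z a u + val z a (fl u T) < 2 * b + 2 := by
      have : ((val z a u + val z a (fl u T) : ℤ) : ℝ) < ((2 * b + 2 : ℤ) : ℝ) := by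
        push_cast; linarith
      exact_mod_cast this
    have h3 : val z a u + val z a (fl u T) = 2 * b + 1 := by omega
    obtain ⟨i, hi, h4⟩ := exists_odd hz a u T (by omega)
    have h5 := val_para hz a u T hi
    have hc : (T.erase i).card = T.card - 1 := card_erase_of_mem hi
    have g1 : mid z u (fl u (T.erase i)) ∈ splitCl^[r] K := ih u _ (by omega)
    have g2 : mid z (fl u {i}) (fl (fl u {i}) (T.erase i)) ∈ splitCl^[r] K := ih _ _ (by omega)
    rw [fl_fl u T hi] at g2
    have s1 := sum_mid z a u (fl u (T.erase i))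
    have s2 := sum_mid z a (fl u {i}) (fl u T)
    -- the two neighbours are on different sides of the split
    have hm : mid z u (fl u T) = (1 / 2 : ℝ) • mid z u (fl u (T.erase i)) +
        (1 / 2 : ℝ) • mid z (fl u {i}) (fl u T) := by
      funext e
      have := para hz u T hi e
      have h' : (z u e : ℝ) + z (fl u T) e = z (fl u {i}) e + z (fl u (T.erase i)) e := by
        exact_mod_cast this
      simp only [mid, Pi.add_apply, Pi.smul_apply, smul_eq_mul]
      linarith
    have key : ∀ p q : E → ℝ, p ∈ splitCl^[r] K → q ∈ splitCl^[r] K →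
        ∑ e, (a e : ℝ) * p e ≤ b → (b : ℝ) + 1 ≤ ∑ e, (a e : ℝ) * q e →
        (1 / 2 : ℝ) • p + (1 / 2 : ℝ) • q ∈ convexHull ℝ
          ({y | y ∈ splitCl^[r] K ∧ ∑ e, (a e : ℝ) * y e ≤ b} ∪
            {y | y ∈ splitCl^[r] K ∧ (b : ℝ) + 1 ≤ ∑ e, (a e : ℝ) * y e}) := by
      intro p q hp hq h6 h7
      have g1 := subset_convexHull ℝ ({y | y ∈ splitCl^[r] K ∧ ∑ e, (a e : ℝ) * y e ≤ b} ∪
            {y | y ∈ splitCl^[r] K ∧ (b : ℝ) + 1 ≤ ∑ e, (a e : ℝ) * y e}) (Or.inl ⟨hp, h6⟩)
      have g2 := subset_convexHull ℝ ({y | y ∈ splitCl^[r] K ∧ ∑ e, (a e : ℝ) * y e ≤ b} ∪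
            {y | y ∈ splitCl^[r] K ∧ (b : ℝ) + 1 ≤ ∑ e, (a e : ℝ) * y e}) (Or.inr ⟨hq, h7⟩)
      exact (convex_convexHull ℝ _) g1 g2 (by norm_num : (0 : ℝ) ≤ 1 / 2)
        (by norm_num : (0 : ℝ) ≤ 1 / 2) (by norm_num)
    -- d = value(fl u {i}) - value u is odd
    have h6 : val z a (fl u T) = val z a (fl u {i}) + val z a (fl u (T.erase i)) - val z a u := by
      omega
    rcases lt_or_ge (val z a (fl u {i})) (val z a u) with h7 | h7
    · -- the second neighbour is lower
      rw [hm, add_comm ((1 / 2 : ℝ) • mid z u (fl u (T.erase i)))]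
      refine key _ _ g2 g1 ?_ ?_
      · rw [s2]
        have : val z a (fl u {i}) + val z a (fl u T) ≤ 2 * b := by omega
        have : ((val z a (fl u {i}) + val z a (fl u T) : ℤ) : ℝ) ≤ ((2 * b : ℤ) : ℝ) := by
          exact_mod_cast this
        push_cast at this
        linarith
      · rw [s1]
        have : 2 * b + 2 ≤ val z a u + val z a (fl u (T.erase i)) := by omega
        have : ((2 * b + 2 : ℤ) : ℝ) ≤ ((val z a u + val z a (fl u (T.erase i)) : ℤ) : ℝ) := by
          exact_mod_cast this
        push_cast at this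
        linarith
    · rw [hm]
      refine key _ _ g1 g2 ?_ ?_
      · rw [s1]
        have : val z a u + val z a (fl u (T.erase i)) ≤ 2 * b := by omega
        have : ((val z a u + val z a (fl u (T.erase i)) : ℤ) : ℝ) ≤ ((2 * b : ℤ) : ℝ) := by
          exact_mod_cast this
        push_cast at this
        linarith
      · rw [s2]
        have : 2 * b + 2 ≤ val z a (fl u {i}) + val z a (fl u T) := by omega
        have : ((2 * b + 2 : ℤ) : ℝ) ≤ ((val z a (fl u {i}) + val z a (fl u T) : ℤ) : ℝ) := by
          exact_mod_cast this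
        push_cast at this
        linarith

theorem card_small {m : ℕ} (k : ℕ) :
    (univ.filter fun T : Finset (Fin m) => T.card < k).card ≤
      ∑ i ∈ range k, m.choose i := by
  classical
  have h : (univ.filter fun T : Finset (Fin m) => T.card < k) ⊆
      (range k).biUnion fun i => powersetCard i (univ : Finset (Fin m)) := by
    intro T hT
    rw [mem_filter] at hT
    rw [mem_biUnion]
    exact ⟨T.card, mem_range.2 (by omega), mem_powersetCard.2 ⟨subset_univ _, rfl⟩⟩
  refine (card_le_card h).trans (card_biUnion_le.trans ?_)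
  refine sum_le_sum fun i _ => ?_
  rw [card_powersetCard, card_univ, Fintype.card_fin]

/-- Convex sets that contain the vertices and avoid the middle points are many. -/
theorem cover {m s r w : ℕ} {z : (Fin m → Bool) → E → ℤ} (hz : OneBit z) (K : Set (E → ℝ))
    (hK : ∀ u T, w ≤ T.card → mid z u (fl u T) ∈ K) (C : Fin s → Set (E → ℝ))
    (hC : ∀ j, Convex ℝ (C j)) (hcov : ∀ u, ∃ j, (fun e => (z u e : ℝ)) ∈ C j)
    (havoid : ∀ j u v, mid z u v ∈ C j → mid z u v ∈ splitCl^[r] K → False) :
    2 ^ m ≤ s * ∑ i ∈ range (r + w), m.choose i := by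
  classical
  choose f hf using hcov
  have h1 : ∀ j, (univ.filter fun u => f u = j).card ≤ ∑ i ∈ range (r + w), m.choose i := by
    intro j
    rcases (univ.filter fun u => f u = j).eq_empty_or_nonempty with h | ⟨u0, hu0⟩
    · rw [h]; simp
    · refine le_trans ?_ (card_small (m := m) (r + w))
      refine card_le_card_of_injOn (fun u => univ.filter fun i => u i ≠ u0 i) ?_ ?_
      · intro u hu
        simp only [coe_filter, mem_univ, true_and, Set.mem_ofPred_eq] at hu ⊢
        rw [mem_filter] at hu0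
        by_contra hcard
        push Not at hcard
        set T := univ.filter fun i => u i ≠ u0 i with hT
        have h2 : fl u T = u0 := by
          funext i
          by_cases hi : u i = u0 i
          · simp [fl, hT, hi]
          · simp only [fl, hT, mem_filter, mem_univ, true_and, ne_eq, hi, not_false_eq_true,
              if_true]
            cases h3 : u i <;> cases h4 : u0 i <;> simp_all
        have h3 : mid z u (fl u T) ∈ splitCl^[r] K := protect hz K hK r u T (by omega)
        refine havoid j u (fl u T) ?_ h3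
        have h4 : mid z u (fl u T) = (1 / 2 : ℝ) • (fun e => (z u e : ℝ)) +
            (1 / 2 : ℝ) • (fun e => (z (fl u T) e : ℝ)) := by
          funext e; simp only [mid, Pi.add_apply, Pi.smul_apply, smul_eq_mul]; ring
        rw [h4]
        have g1 : (fun e => (z u e : ℝ)) ∈ C j := by rw [← hu]; exact hf u
        have g2 : (fun e => (z (fl u T) e : ℝ)) ∈ C j := by rw [h2, ← hu0.2]; exact hf u0
        exact hC j g1 g2 (by norm_num : (0 : ℝ) ≤ 1 / 2)
          (by norm_num : (0 : ℝ) ≤ 1 / 2) (by norm_num)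
      · intro u _ v _ huv
        funext i
        have := Finset.ext_iff.1 huv i
        simp only [mem_filter, mem_univ, true_and] at this
        cases h3 : u i <;> cases h4 : v i <;> cases h5 : u0 i <;> simp_all
  have h2 : (univ : Finset (Fin m → Bool)).card = 2 ^ m := by simp
  rw [← h2, card_eq_sum_card_fiberwise (f := f) (t := univ) (fun _ _ => mem_coe.2 (mem_univ _))]
  refine (sum_le_sum fun j _ => h1 j).trans ?_
  simp

end Pool.Agent.T9h88.BB
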