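import Pool.Agent.T9h88.BB.Loop

/-!
# No tour of the points consists of tight steps
-/

set_option autoImplicit false

namespace Pool.Agent.T9h88.BB

open Finset

variable {m t : ℕ}

/-- tight pairs -/
def Adj (p q : ℤ × ℤ) : Prop :=
  (q.2 = p.2 ∧ (q.1 = p.1 + 1 ∨ q.1 = p.1 - 1)) ∨
  (q.2 = p.2 ∧ (q.1 = p.1 + 2 ∨ q.1 = p.1 - 2) ∧ p.1 % 2 = 0) ∨
  (q.1 = p.1 ∧ (q.2 = p.2 + 2 ∨ q.2 = p.2 - 2) ∧ p.1 % 2 = 0)

/-- the neighbourhood relation of a tight tour -/
structure TightRel (m t : ℕ) (R : ℤ × ℤ → ℤ × ℤ → Prop) : Prop where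
  val : ∀ p q, R p q → InS m t p ∧ InS m t q ∧ Adj p q ∧ R q p
  two : ∀ p, InS m t p → ∃ a b, a ≠ b ∧ R p a ∧ R p b ∧ ∀ q, R p q → q = a ∨ q = b
  conn : ∀ P : ℤ × ℤ → Prop, (∀ p q, R p q → P p → P q) → (∃ p, InS m t p ∧ P p) →
    ∀ p, InS m t p → P p

section

variable {R : ℤ × ℤ → ℤ × ℤ → Prop}

theorem TightRel.only (h : TightRel m t R) {p x y q : ℤ × ℤ} (hx : R p x) (hy : R p y)
    (hxy : x ≠ y) (hq : R p q) : q = x ∨ q = y := by
  obtain ⟨a, b, hab, ha, hb, hc⟩ := h.two p (h.val p x hx).1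
  rcases hc x hx with rfl | rfl <;> rcases hc y hy with rfl | rfl <;>
    rcases hc q hq with rfl | rfl <;> simp_all

theorem TightRel.d2 (h : TightRel m t R) {p a b : ℤ × ℤ} (hp : InS m t p)
    (hn : ∀ q, InS m t q → Adj p q → q = a ∨ q = b) : R p a ∧ R p b := by
  obtain ⟨x, y, hxy, hx, hy, hc⟩ := h.two p hp
  obtain ⟨-, x1, x2, -⟩ := h.val _ _ hx
  obtain ⟨-, y1, y2, -⟩ := h.val _ _ hy
  rcases hn x x1 x2 with rfl | rfl <;> rcases hn y y1 y2 with rfl | rfl
  · exact absurd rfl hxy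
  · exact ⟨hx, hy⟩
  · exact ⟨hy, hx⟩
  · exact absurd rfl hxy

theorem TightRel.d3 (h : TightRel m t R) {p a b c : ℤ × ℤ} (hp : InS m t p)
    (hn : ∀ q, InS m t q → Adj p q → q = a ∨ q = b ∨ q = c) (ha : R p a)
    (hab : a ≠ b) (hac : a ≠ c) (hbc : b ≠ c) : (R p b ↔ ¬ R p c) := by
  obtain ⟨x, y, hxy, hx, hy, hc⟩ := h.two p hp
  obtain ⟨-, x1, x2, -⟩ := h.val _ _ hx
  obtain ⟨-, y1, y2, -⟩ := h.val _ _ hy
  constructor
  · intro hb hc'
    rcases h.only ha hb hab hc' with h1 | h1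
    · exact hac h1.symm
    · exact hbc h1.symm
  · intro hnc
    rcases hn x x1 x2 with rfl | rfl | rfl
    · rcases hn y y1 y2 with rfl | rfl | rfl
      · exact absurd rfl hxy
      · exact hy
      · exact absurd hy hnc
    · exact hx
    · exact absurd hx hnc

/-- There is no tight tour. -/
theorem TightRel.false (h : TightRel m t R) (hm : 1 ≤ m) : False := by
  have nbrs : ∀ (p : ℤ × ℤ) (C : ℤ × ℤ → Prop), (∀ x y : ℤ, InS m t (x, y) → Adj p (x, y) →
      C (x, y)) → ∀ q, InS m t q → Adj p q → C q := fun p C hC q h1 h2 => hC q.1 q.2 h1 h2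
  -- the local structure of a block
  have blk : ∀ i : ℤ, 0 ≤ i → i < m →
      R (6 * i + 1, 2) (6 * i, 2) ∧ R (6 * i + 1, 2) (6 * i + 2, 2) ∧
      (R (6 * i, 4) (6 * i + 2, 4) ↔ ¬ R (6 * i, 4) (6 * i, 2)) ∧
      (R (6 * i + 2, 4) (6 * i, 4) ↔ ¬ R (6 * i + 2, 4) (6 * i + 2, 2)) := by
    intro i h0 h1
    have hmu := h.d2 (p := (6 * i + 1, 2)) (a := (6 * i, 2)) (b := (6 * i + 2, 2))
      (by unfold InS; dsimp only; omega)
      (nbrs _ _ (fun x y hq ha => by
        unfold InS at hq; unfold Adj at ha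
        dsimp only at hq ha
        simp only [Prod.mk.injEq]
        omega))
    -- the forced neighbour of `(6 i, 4)`
    have hl : ∃ l : ℤ × ℤ, R (6 * i, 4) l ∧ l ≠ (6 * i + 2, 4) ∧ l ≠ (6 * i, 2) ∧
        ∀ q, InS m t q → Adj (6 * i, 4) q → q = l ∨ q = (6 * i + 2, 4) ∨ q = (6 * i, 2) := by
      rcases eq_or_lt_of_le h0 with h2 | h2
      · refine ⟨(0, 6), ?_, ?_, ?_, ?_⟩
        · have := (h.d2 (p := (0, 6)) (a := (0, 4)) (b := (0, 8))
            (by unfold InS; dsimp only; omega)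
            (nbrs _ _ (fun x y hq ha => by
              unfold InS at hq; unfold Adj at ha
              dsimp only at hq ha
              simp only [Prod.mk.injEq]
              omega))).1
          rw [← h2]
          exact (h.val _ _ this).2.2.2
        · simp only [ne_eq, Prod.mk.injEq]; omega
        · simp only [ne_eq, Prod.mk.injEq]; omega
        · exact nbrs _ _ (fun x y hq ha => by
            unfold InS at hq; unfold Adj at ha
            dsimp only at hq ha
            simp only [Prod.mk.injEq]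
            omega)
      · refine ⟨(6 * i - 2, 4), ?_, ?_, ?_, ?_⟩
        · have := (h.d2 (p := (6 * i - 2, 4)) (a := (6 * i, 4)) (b := (6 * i - 4, 4))
            (by unfold InS; dsimp only; omega)
            (nbrs _ _ (fun x y hq ha => by
              unfold InS at hq; unfold Adj at ha
              dsimp only at hq ha
              simp only [Prod.mk.injEq]
              omega))).1
          exact (h.val _ _ this).2.2.2
        · simp only [ne_eq, Prod.mk.injEq]; omega
        · simp only [ne_eq, Prod.mk.injEq]; omega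
        · exact nbrs _ _ (fun x y hq ha => by
            unfold InS at hq; unfold Adj at ha
            dsimp only at hq ha
            simp only [Prod.mk.injEq]
            omega)
    have hr : R (6 * i + 2, 4) (6 * i + 4, 4) := by
      by_cases h2 : i + 1 < m
      · have := (h.d2 (p := (6 * i + 4, 4)) (a := (6 * i + 2, 4)) (b := (6 * i + 6, 4))
            (by unfold InS; dsimp only; omega)
            (nbrs _ _ (fun x y hq ha => by
              unfold InS at hq; unfold Adj at ha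
              dsimp only at hq ha
              simp only [Prod.mk.injEq]
              omega))).1
        exact (h.val _ _ this).2.2.2
      · have := (h.d2 (p := (6 * i + 4, 4)) (a := (6 * i + 2, 4)) (b := (6 * i + 4, 6))
            (by unfold InS; dsimp only; omega)
            (nbrs _ _ (fun x y hq ha => by
              unfold InS at hq; unfold Adj at ha
              dsimp only at hq ha
              simp only [Prod.mk.injEq]
              omega))).1
        exact (h.val _ _ this).2.2.2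
    refine ⟨hmu.1, hmu.2, ?_, ?_⟩
    · obtain ⟨l, l1, l2, l3, l4⟩ := hl
      exact h.d3 (by unfold InS; dsimp only; omega) l4 l1 l2 l3
        (by simp only [ne_eq, Prod.mk.injEq]; omega)
    · refine h.d3 (a := (6 * i + 4, 4)) (by unfold InS; dsimp only; omega) ?_ hr
        (by simp only [ne_eq, Prod.mk.injEq]; omega) (by simp only [ne_eq, Prod.mk.injEq]; omega)
        (by simp only [ne_eq, Prod.mk.injEq]; omega)
      exact nbrs _ _ (fun x y hq ha => by
        unfold InS at hq; unfold Adj at ha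
        dsimp only at hq ha
        simp only [Prod.mk.injEq]
        omega)
  have sym : ∀ {p q}, R p q → R q p := fun hpq => (h.val _ _ hpq).2.2.2
  -- the upper loop is closed
  set P : ℤ × ℤ → Prop := fun p => 4 ≤ p.2 ∨
    (p.2 = 2 ∧ R (6 * (p.1 / 6), 4) (6 * (p.1 / 6), 2)) with hP
  have hcl : ∀ p q, R p q → P p → P q := by
    rintro ⟨x, y⟩ ⟨x', y'⟩ hR hp
    obtain ⟨s1, s2, s3, -⟩ := h.val _ _ hR
    have b0 : 0 ≤ x' / 6 ∧ x' / 6 < m := by
      have := s2.1; have := s2.2.1; dsimp only at *; omega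
    have a0 : 0 ≤ x / 6 ∧ x / 6 < m := by
      have := s1.1; have := s1.2.1; dsimp only at *; omega
    by_cases hy' : 4 ≤ y'
    · exact Or.inl hy'
    unfold InS at s1 s2
    unfold Adj at s3
    dsimp only at s1 s2 s3 hp
    rcases hp with hp | ⟨hp, hv⟩
    · -- from the upper rails down to a domino
      have e1 : y = 4 ∧ y' = 2 ∧ x' = x := by dsimp only at hp; omega
      obtain ⟨rfl, rfl, rfl⟩ := e1
      refine Or.inr ⟨rfl, ?_⟩
      dsimp only
      obtain ⟨g1, g2, g3, g4⟩ := blk (x' / 6) b0.1 b0.2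
      have e2 : x' = 6 * (x' / 6) ∨ x' = 6 * (x' / 6) + 2 := by omega
      rcases e2 with e2 | e2
      · rw [← e2]; exact hR
      · have h5 : ¬ R (6 * (x' / 6) + 2, 4) (6 * (x' / 6), 4) := by
          intro h6
          refine (g4.1 h6) ?_
          rw [← e2]; exact hR
        by_contra h6
        exact h5 (sym (g3.2 h6))
    · dsimp only at hp hv
      subst hp
      obtain ⟨g1, g2, g3, g4⟩ := blk (x / 6) a0.1 a0.2
      have h5 : ¬ R (6 * (x / 6), 4) (6 * (x / 6) + 2, 4) := fun h6 => (g3.1 h6) hv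
      have h7 : R (6 * (x / 6) + 2, 4) (6 * (x / 6) + 2, 2) := by
        by_contra h8
        exact h5 (sym (g4.2 h8))
      have e2 : x = 6 * (x / 6) ∨ x = 6 * (x / 6) + 1 ∨ x = 6 * (x / 6) + 2 := by omega
      -- the other end is in the same domino
      have fin : x' = 6 * (x / 6) ∨ x' = 6 * (x / 6) + 1 ∨ x' = 6 * (x / 6) + 2 → y' = 2 →
          P (x', y') := by
        intro h8 h9
        refine Or.inr ⟨h9, ?_⟩
        dsimp only
        have : x' / 6 = x / 6 := by omega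
        rw [this]; exact hv
      generalize x / 6 = i at *
      rcases e2 with rfl | rfl | rfl
      · rcases h.only (sym g1) (sym hv) (by simp only [ne_eq, Prod.mk.injEq]; omega) hR with h8 | h8
        · rw [Prod.mk.injEq] at h8
          exact fin (Or.inr (Or.inl h8.1)) h8.2
        · rw [Prod.mk.injEq] at h8
          omega
      · rcases h.only g1 g2 (by simp only [ne_eq, Prod.mk.injEq]; omega) hR with h8 | h8
        · rw [Prod.mk.injEq] at h8
          exact fin (Or.inl h8.1) h8.2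
        · rw [Prod.mk.injEq] at h8
          exact fin (Or.inr (Or.inr h8.1)) h8.2
      · rcases h.only (sym g2) (sym h7) (by simp only [ne_eq, Prod.mk.injEq]; omega) hR with h8 | h8
        · rw [Prod.mk.injEq] at h8
          exact fin (Or.inr (Or.inl h8.1)) h8.2
        · rw [Prod.mk.injEq] at h8
          omega
  have h1 := h.conn P hcl ⟨(0, 8), by unfold InS; dsimp only; omega, Or.inl (by norm_num)⟩
    (0, -4) (by unfold InS; dsimp only; omega)
  rcases h1 with h1 | ⟨h1, -⟩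
  · dsimp only at h1; omega
  · dsimp only at h1; omega

end

/-- the Euclidean distance -/
noncomputable def ed (p q : ℤ × ℤ) : ℝ :=
  √(((p.1 : ℝ) - q.1) ^ 2 + ((p.2 : ℝ) - q.2) ^ 2)

theorem ed_comm (p q : ℤ × ℤ) : ed p q = ed q p := by
  unfold ed; congr 1; ring

theorem rd_nonneg (p : ℤ × ℤ) : 0 ≤ rd p := by unfold rd; split_ifs <;> norm_num

theorem ed_ge {p q : ℤ × ℤ} (hp : InS m t p) (hq : InS m t q) (hne : p ≠ q) :
    ((rd p + rd q : ℤ) : ℝ) ≤ ed p q := by
  have h := sep hp hq hne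
  unfold ed
  refine Real.le_sqrt_of_sq_le ?_
  have h1 : (((rd p + rd q) ^ 2 : ℤ) : ℝ) ≤ (((p.1 - q.1) ^ 2 + (p.2 - q.2) ^ 2 : ℤ) : ℝ) := by
    exact_mod_cast h
  push_cast at h1 ⊢
  exact h1

theorem ed_eq {p q : ℤ × ℤ} (h : (p.1 - q.1) ^ 2 + (p.2 - q.2) ^ 2 = (rd p + rd q) ^ 2) :
    ed p q = ((rd p + rd q : ℤ) : ℝ) := by
  unfold ed
  have h1 : (((p.1 - q.1) ^ 2 + (p.2 - q.2) ^ 2 : ℤ) : ℝ) = (((rd p + rd q) ^ 2 : ℤ) : ℝ) := by
    rw [h]
  push_cast at h1
  rw [h1]
  have h2 : (0 : ℝ) ≤ (rd p : ℝ) + rd q := by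
    have := rd_nonneg p; have := rd_nonneg q
    have : (0 : ℤ) ≤ rd p + rd q := by omega
    exact_mod_cast this
  rw [Real.sqrt_sq h2]
  push_cast; rfl

theorem adj_of_ed {p q : ℤ × ℤ} (hp : InS m t p) (hq : InS m t q) (hne : p ≠ q)
    (h : ed p q ≤ ((rd p + rd q : ℤ) : ℝ)) : Adj p q := by
  have h1 := Real.sqrt_le_left (y := ((rd p + rd q : ℤ) : ℝ))
    (x := ((p.1 : ℝ) - q.1) ^ 2 + ((p.2 : ℝ) - q.2) ^ 2) (by
      have := rd_nonneg p; have := rd_nonneg q
      have : (0 : ℤ) ≤ rd p + rd q := by omega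
      exact_mod_cast this)
  have h2 := h1.1 h
  have h3 : (p.1 - q.1) ^ 2 + (p.2 - q.2) ^ 2 ≤ (rd p + rd q) ^ 2 := by
    have : (((p.1 - q.1) ^ 2 + (p.2 - q.2) ^ 2 : ℤ) : ℝ) ≤ (((rd p + rd q) ^ 2 : ℤ) : ℝ) := by
      push_cast at h2 ⊢; exact h2
    exact_mod_cast this
  obtain ⟨x, y⟩ := p
  obtain ⟨x', y'⟩ := q
  have h0 : x ≠ x' ∨ y ≠ y' := by
    by_contra h; push Not at h; exact hne (by rw [h.1, h.2])
  obtain ⟨p1, p2, p3⟩ := hp
  obtain ⟨q1, q2, q3⟩ := hq
  unfold Adj
  unfold rd at h3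
  dsimp only at *
  have bx : (x - x') ^ 2 ≤ 4 := by
    have := sq_nonneg (y - y')
    split_ifs at h3 <;> nlinarith
  have by' : (y - y') ^ 2 ≤ 4 := by
    have := sq_nonneg (x - x')
    split_ifs at h3 <;> nlinarith
  have bx1 : -2 ≤ x - x' ∧ x - x' ≤ 2 := by constructor <;> nlinarith
  have by1 : -2 ≤ y - y' ∧ y - y' ≤ 2 := by constructor <;> nlinarith
  have ye : y % 2 = 0 := by omega
  have ye' : y' % 2 = 0 := by omega
  have hy : y - y' = 0 ∨ y - y' = 2 ∨ y - y' = -2 := by omega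
  have hx : x - x' = 0 ∨ x - x' = 1 ∨ x - x' = -1 ∨ x - x' = 2 ∨ x - x' = -2 := by omega
  split_ifs at h3 with c1 c2 c2 <;> rcases hy with hy | hy | hy <;>
    rcases hx with hx | hx | hx | hx | hx <;> rw [hx, hy] at h3 <;> norm_num at h3 <;> omega

/-- Every tour of the points is longer than the loops. -/
theorem long (hm : 1 ≤ m) (σ : Equiv.Perm (S m t)) (hσ : OneCycle σ) :
    ((2 * ∑ p : S m t, rd p.1 : ℤ) : ℝ) < ∑ p : S m t, ed p.1 (σ p).1 := by
  classical
  by_contra hcon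
  push Not at hcon
  -- three points
  have m0 : InS m t (0, 8) := by unfold InS; dsimp only; omega
  have m1 : InS m t (0, 4) := by unfold InS; dsimp only; omega
  have m2 : InS m t (0, -4) := by unfold InS; dsimp only; omega
  have hinv := inv_of_oneCycle hσ
  have hne : ∀ p, σ p ≠ p := by
    intro p hp
    have h1 := hinv {p} (fun q hq => by rw [mem_singleton] at hq ⊢; rw [hq, hp])
      (singleton_nonempty p)
    have h2 : (⟨_, mem_S.2 m0⟩ : S m t) ∈ ({p} : Finset (S m t)) := by rw [h1]; exact mem_univ _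
    have h3 : (⟨_, mem_S.2 m1⟩ : S m t) ∈ ({p} : Finset (S m t)) := by rw [h1]; exact mem_univ _
    rw [mem_singleton] at h2 h3
    have h4 := congrArg Subtype.val (h2.trans h3.symm)
    simp at h4
  have hne2 : ∀ p, σ (σ p) ≠ p := by
    intro p hp
    have h1 := hinv {p, σ p} (fun q hq => by
      rw [mem_insert, mem_singleton] at hq ⊢
      rcases hq with rfl | rfl
      · right; rfl
      · left; exact hp) ⟨p, by simp⟩
    have h2 : (⟨_, mem_S.2 m0⟩ : S m t) ∈ ({p, σ p} : Finset (S m t)) := by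
      rw [h1]; exact mem_univ _
    have h3 : (⟨_, mem_S.2 m1⟩ : S m t) ∈ ({p, σ p} : Finset (S m t)) := by
      rw [h1]; exact mem_univ _
    have h4 : (⟨_, mem_S.2 m2⟩ : S m t) ∈ ({p, σ p} : Finset (S m t)) := by
      rw [h1]; exact mem_univ _
    rw [mem_insert, mem_singleton] at h2 h3 h4
    have key : ∀ a b : S m t, a = b → a.1.2 = b.1.2 := fun a b h => by rw [h]
    rcases h2 with h2 | h2 <;> rcases h3 with h3 | h3 <;> rcases h4 with h4 | h4 <;>
      first
      | (have := key _ _ (h2.trans h3.symm); simp at this; done)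
      | (have := key _ _ (h2.trans h4.symm); simp at this; done)
      | (have := key _ _ (h3.trans h4.symm); simp at this; done)
  -- all steps are tight
  have hsum : ((2 * ∑ p : S m t, rd p.1 : ℤ) : ℝ) =
      ∑ p : S m t, ((rd p.1 + rd (σ p).1 : ℤ) : ℝ) := by
    have h1 : ∑ p : S m t, rd (σ p).1 = ∑ p : S m t, rd p.1 :=
      Equiv.sum_comp σ (fun p : S m t => rd p.1)
    rw [← Int.cast_sum, sum_add_distrib, h1, two_mul]
  have hge : ∀ p : S m t, ((rd p.1 + rd (σ p).1 : ℤ) : ℝ) ≤ ed p.1 (σ p).1 := fun p =>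
    ed_ge (mem_S.1 p.2) (mem_S.1 (σ p).2) fun h => hne p (Subtype.ext h.symm)
  have htight : ∀ p : S m t, ed p.1 (σ p).1 ≤ ((rd p.1 + rd (σ p).1 : ℤ) : ℝ) := by
    intro p
    by_contra hlt
    push Not at hlt
    have := sum_lt_sum (s := univ) (fun p _ => hge p) ⟨p, mem_univ _, hlt⟩
    rw [hsum] at hcon
    linarith
  have hadj : ∀ p : S m t, Adj p.1 (σ p).1 := fun p =>
    adj_of_ed (mem_S.1 p.2) (mem_S.1 (σ p).2) (fun h => hne p (Subtype.ext h.symm)) (htight p)
  have adj_symm : ∀ p q : ℤ × ℤ, Adj p q → Adj q p := by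
    intro p q h; unfold Adj at *; omega
  refine TightRel.false (m := m) (t := t) (R := fun p q => ∃ (hp : p ∈ S m t) (hq : q ∈ S m t),
    σ ⟨p, hp⟩ = ⟨q, hq⟩ ∨ σ ⟨q, hq⟩ = ⟨p, hp⟩) ⟨?_, ?_, ?_⟩ hm
  · rintro p q ⟨hp, hq, h⟩
    refine ⟨mem_S.1 hp, mem_S.1 hq, ?_, hq, hp, h.symm⟩
    rcases h with h | h
    · have := hadj ⟨p, hp⟩; rw [h] at this; exact this
    · have := hadj ⟨q, hq⟩; rw [h] at this; exact adj_symm _ _ this
  · intro p hp
    have hp' := mem_S.2 hp
    refine ⟨(σ ⟨p, hp'⟩).1, (σ.symm ⟨p, hp'⟩).1, ?_, ⟨hp', (σ ⟨p, hp'⟩).2, Or.inl rfl⟩,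
      ⟨hp', (σ.symm ⟨p, hp'⟩).2, Or.inr (by simp)⟩, ?_⟩
    · intro h
      have h1 := Subtype.ext h
      refine hne2 ⟨p, hp'⟩ ?_
      rw [h1, Equiv.apply_symm_apply]
    · rintro q ⟨_, hq, h | h⟩
      · left; rw [h]
      · right; rw [← h, Equiv.symm_apply_apply]
  · intro P hP ⟨p, hp, hPp⟩ q hq
    have h1 := hinv (univ.filter fun x : S m t => P x.1) (fun x hx => by
      rw [mem_filter] at hx ⊢
      exact ⟨mem_univ _, hP x.1 (σ x).1 ⟨x.2, (σ x).2, Or.inl rfl⟩ hx.2⟩)
      ⟨⟨p, mem_S.2 hp⟩, mem_filter.2 ⟨mem_univ _, hPp⟩⟩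
    have h2 : (⟨q, mem_S.2 hq⟩ : S m t) ∈ univ.filter fun x : S m t => P x.1 := by
      rw [h1]; exact mem_univ _
    exact (mem_filter.1 h2).2

end Pool.Agent.T9h88.BB
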