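import Pool.Agent.T9h88.BB.Rel
import Pool.Agent.T9h88.BB.NoT

/-!
# The number of points, and binomial sums
-/

set_option autoImplicit false

namespace Pool.Agent.T9h88.BB

open Finset

/-- a parametrisation of the points -/
def par (m t : ℕ) : (Fin 4 × Fin (3 * m)) ⊕ Fin t ⊕ Fin 4 ⊕ (Fin m × Fin 3) → ℤ × ℤ
  | .inl (r, c) => (2 * ((c : ℕ) : ℤ), 8 - 4 * ((r : ℕ) : ℤ))
  | .inr (.inl c) => (2 * ((c : ℕ) : ℤ) + 1, 8)
  | .inr (.inr (.inl s)) => (if (s : ℕ) % 2 = 0 then 0 else 6 * m - 2, if (s : ℕ) < 2 then 6 else -2)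
  | .inr (.inr (.inr (i, j))) => (6 * ((i : ℕ) : ℤ) + ((j : ℕ) : ℤ), 2)

theorem par_inj (m t : ℕ) : Function.Injective (par m t) := by
  rintro (⟨r, c⟩ | c | s | ⟨i, j⟩) (⟨r', c'⟩ | c' | s' | ⟨i', j'⟩) h <;>
    simp only [par, Prod.mk.injEq] at h
  · obtain ⟨h1, h2⟩ := h
    have : r = r' := Fin.ext (by omega)
    have : c = c' := Fin.ext (by omega)
    simp_all
  · omega
  · have := r.2; split_ifs at h <;> omega
  · have := r.2; omega
  · omega
  · have : c = c' := Fin.ext (by omega)
    rw [this]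
  · split_ifs at h <;> omega
  · omega
  · have := r'.2; split_ifs at h <;> omega
  · split_ifs at h <;> omega
  · obtain ⟨h1, h2⟩ := h
    have h3 := s.2
    have h4 := s'.2
    have h5 : ((s : ℕ) < 2) ↔ ((s' : ℕ) < 2) := by
      split_ifs at h2 <;> first | (constructor <;> intro <;> omega) | omega
    have h6 : ((s : ℕ) % 2 = 0) ↔ ((s' : ℕ) % 2 = 0) := by
      split_ifs at h1 <;> first | (constructor <;> intro <;> omega) | omega
    have : s = s' := by
      apply Fin.ext
      omega
    rw [this]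
  · obtain ⟨h1, h2⟩ := h
    split_ifs at h2 <;> omega
  · have := r'.2; omega
  · omega
  · obtain ⟨h1, h2⟩ := h
    split_ifs at h2 <;> omega
  · have h1 := j.2
    have h2 := j'.2
    have : i = i' := Fin.ext (by omega)
    have : j = j' := Fin.ext (by omega)
    simp_all

theorem card_S {m t : ℕ} (hm : 1 ≤ m) (ht : t < 3 * m) : (S m t).card = 15 * m + 4 + t := by
  classical
  have h1 : univ.image (par m t) = S m t := by
    ext p
    rw [mem_image, mem_S]
    constructor
    · rintro ⟨q, -, rfl⟩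
      rcases q with (⟨r, c⟩ | c | s | ⟨i, j⟩)
      · have := r.2; have := c.2; unfold InS par; dsimp only; omega
      · have := c.2; unfold InS par; dsimp only; omega
      · have := s.2; unfold InS par; dsimp only; split_ifs <;> omega
      · have := i.2; have := j.2; unfold InS par; dsimp only; omega
    · obtain ⟨x, y⟩ := p
      rintro ⟨h1, h2, h3⟩
      dsimp only at h1 h2 h3
      rcases h3 with ⟨rfl, h⟩ | ⟨rfl, h⟩ | ⟨rfl, h⟩ | ⟨rfl, h⟩ | ⟨rfl, h⟩ | ⟨rfl, h⟩ | ⟨rfl, h⟩
      · rcases Int.emod_two_eq_zero_or_one x with h4 | h4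
        · refine ⟨.inl (0, ⟨(x / 2).toNat, by omega⟩), mem_univ _, ?_⟩
          simp only [par, Prod.mk.injEq]
          constructor
          · omega
          · rfl
        · refine ⟨.inr (.inl ⟨(x / 2).toNat, by omega⟩), mem_univ _, ?_⟩
          simp only [par, Prod.mk.injEq, and_true]
          omega
      · rcases h with rfl | rfl
        · exact ⟨.inr (.inr (.inl 0)), mem_univ _, by simp [par]⟩
        · exact ⟨.inr (.inr (.inl 1)), mem_univ _, by simp [par]⟩
      · refine ⟨.inl (1, ⟨(x / 2).toNat, by omega⟩), mem_univ _, ?_⟩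
        simp only [par, Prod.mk.injEq]
        constructor
        · omega
        · rfl
      · refine ⟨.inr (.inr (.inr (⟨(x / 6).toNat, by omega⟩, ⟨(x % 6).toNat, by omega⟩))),
          mem_univ _, ?_⟩
        simp only [par, Prod.mk.injEq, and_true]
        omega
      · refine ⟨.inl (2, ⟨(x / 2).toNat, by omega⟩), mem_univ _, ?_⟩
        simp only [par, Prod.mk.injEq]
        constructor
        · omega
        · rfl
      · rcases h with rfl | rfl
        · exact ⟨.inr (.inr (.inl 2)), mem_univ _, by simp [par]⟩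
        · exact ⟨.inr (.inr (.inl 3)), mem_univ _, by simp [par]⟩
      · refine ⟨.inl (3, ⟨(x / 2).toNat, by omega⟩), mem_univ _, ?_⟩
        simp only [par, Prod.mk.injEq]
        constructor
        · omega
        · rfl
  rw [← h1, card_image_of_injective _ (par_inj m t), card_univ]
  simp only [Fintype.card_sum, Fintype.card_prod, Fintype.card_fin]
  ring

/-- a bound for sums of binomial coefficients -/
theorem choose_sum_le (m k : ℕ) :
    (∑ i ∈ range (k + 1), (m.choose i : ℝ)) ≤ (9 / 8) ^ m * 8 ^ k := by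
  have h1 : (9 / 8 : ℝ) ^ m = ∑ i ∈ range (m + 1), (1 / 8 : ℝ) ^ i * (m.choose i : ℝ) := by
    have := add_pow (1 / 8 : ℝ) 1 m
    norm_num at this ⊢
    exact this
  have h2 : (∑ i ∈ range (k + 1), (m.choose i : ℝ)) =
      ∑ i ∈ (range (k + 1)).filter (· ∈ range (m + 1)), (m.choose i : ℝ) := by
    refine (sum_subset (filter_subset _ _) fun i hi hi' => ?_).symm
    rw [mem_filter, not_and] at hi'
    have := hi' hi
    rw [mem_range] at this
    rw [Nat.choose_eq_zero_of_lt (by omega)]
    simp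
  rw [h2, h1, sum_mul]
  refine (sum_le_sum fun i hi => ?_).trans
    (sum_le_sum_of_subset_of_nonneg (s := (range (k + 1)).filter (· ∈ range (m + 1)))
      (f := fun i => (1 / 8 : ℝ) ^ i * (m.choose i : ℝ) * 8 ^ k) ?_ fun i _ _ => by positivity)
  · rw [mem_filter, mem_range] at hi
    have h3 : (8 : ℝ) ^ k = 8 ^ i * 8 ^ (k - i) := by rw [← pow_add]; congr 1; omega
    have h4 : (1 / 8 : ℝ) ^ i * 8 ^ i = 1 := by rw [← mul_pow]; norm_num
    have h5 : (1 : ℝ) ≤ 8 ^ (k - i) := one_le_pow₀ (by norm_num)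
    have h6 : (0 : ℝ) ≤ m.choose i := by positivity
    calc (m.choose i : ℝ) = m.choose i * 1 := by ring
      _ ≤ m.choose i * 8 ^ (k - i) := by gcongr
      _ = (1 / 8 : ℝ) ^ i * (m.choose i : ℝ) * 8 ^ k := by
        rw [h3]
        calc _ = ((1 / 8 : ℝ) ^ i * 8 ^ i) * ((m.choose i : ℝ) * 8 ^ (k - i)) := by rw [h4]; ring
          _ = _ := by ring
  · intro i hi
    exact (mem_filter.1 hi).2

end Pool.Agent.T9h88.BB
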