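import Pool.Agent.T9h88.BB.Inst

/-!
# Incidence vectors of permutations, and sets that are invariant under the two loops
-/

set_option autoImplicit false

namespace Pool.Agent.T9h88.BB

open Finset

section perm

variable {V : Type} [Fintype V] [DecidableEq V]

/-- the incidence vector of a permutation -/
def pvec (σ : Equiv.Perm V) : Sym2 V → ℤ :=
  Sym2.lift ⟨fun p q => (if σ p = q then 1 else 0) + (if σ q = p then 1 else 0),
    fun p q => add_comm _ _⟩

theorem pvec_mk (σ : Equiv.Perm V) (p q : V) :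
    pvec σ s(p, q) = (if σ p = q then 1 else 0) + (if σ q = p then 1 else 0) := rfl

theorem sum_pvec (σ : Equiv.Perm V) (p : V) : ∑ q, pvec σ s(p, q) = 2 := by
  simp only [pvec_mk]
  rw [sum_add_distrib]
  have h1 : ∑ q, (if σ p = q then (1 : ℤ) else 0) = 1 := by simp
  have h2 : ∑ q, (if σ q = p then (1 : ℤ) else 0) = 1 := by
    have : ∀ q, (if σ q = p then (1 : ℤ) else 0) = if q = σ.symm p then 1 else 0 := by
      intro q
      by_cases h : σ q = p
      · rw [if_pos h, if_pos (by rw [← h, Equiv.symm_apply_apply])]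
      · rw [if_neg h, if_neg (fun h' => h (by rw [h', Equiv.apply_symm_apply]))]
    simp only [this]
    simp
  rw [h1, h2]; rfl

theorem sum_d_pvec (σ : Equiv.Perm V) (d : V → V → ℝ) (hd : ∀ p q, d p q = d q p) :
    ∑ p, ∑ q, d p q * (pvec σ s(p, q) : ℝ) = 2 * ∑ p, d p (σ p) := by
  simp only [pvec_mk]
  push_cast
  simp only [mul_add, sum_add_distrib]
  have h1 : ∑ p, ∑ q, d p q * (if σ p = q then (1 : ℝ) else 0) = ∑ p, d p (σ p) := by
    refine sum_congr rfl fun p _ => ?_
    simp
  have h2 : ∑ p, ∑ q, d p q * (if σ q = p then (1 : ℝ) else 0) = ∑ p, d p (σ p) := by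
    rw [sum_comm]
    refine sum_congr rfl fun q _ => ?_
    simp [hd (σ q) q]
  rw [h1, h2]; ring

/-- the steps that leave a set -/
def ex (σ : Equiv.Perm V) (T : Finset V) : Finset V := T.filter fun p => σ p ∉ T

theorem card_enter (σ : Equiv.Perm V) (T : Finset V) :
    (Tᶜ.filter fun p => σ p ∈ T).card = (ex σ T).card := by
  have h1 : (univ.filter fun p => σ p ∈ T).card = T.card := by
    have : (univ.filter fun p => σ p ∈ T) = T.map (σ.symm : V ≃ V).toEmbedding := by
      ext p
      simp
    rw [this, card_map]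
  have h2 : (univ.filter fun p => σ p ∈ T) = (T.filter fun p => σ p ∈ T) ∪
      (Tᶜ.filter fun p => σ p ∈ T) := by
    rw [← filter_union, union_compl]
  have h3 : Disjoint (T.filter fun p => σ p ∈ T) (Tᶜ.filter fun p => σ p ∈ T) :=
    disjoint_filter_filter disjoint_compl_right
  rw [h2, card_union_of_disjoint h3] at h1
  have h4 := card_filter_add_card_filter_not (s := T) (p := fun p => σ p ∈ T)
  unfold ex
  omega

theorem cut_pvec (σ : Equiv.Perm V) (T : Finset V) :
    ∑ p ∈ T, ∑ q ∈ Tᶜ, pvec σ s(p, q) = 2 * ((ex σ T).card : ℤ) := by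
  simp only [pvec_mk, sum_add_distrib]
  have h1 : ∑ p ∈ T, ∑ q ∈ Tᶜ, (if σ p = q then (1 : ℤ) else 0) = (ex σ T).card := by
    rw [ex, card_filter]
    push_cast
    refine sum_congr rfl fun p _ => ?_
    rw [sum_ite_eq]
    simp
  have h2 : ∑ p ∈ T, ∑ q ∈ Tᶜ, (if σ q = p then (1 : ℤ) else 0) = (ex σ T).card := by
    rw [← card_enter, card_filter, sum_comm]
    push_cast
    refine sum_congr rfl fun q _ => ?_
    rw [sum_ite_eq]
  rw [h1, h2]; ring

end perm

variable {m t : ℕ} {U : ℤ → Bool}

/-- the classes of an invariant property -/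
theorem inv_step {P : ℤ × ℤ → Prop} (hP : ∀ p, InS m t p → (P p ↔ P (nx m t U p)))
    (x y x' y' : ℤ) (h : InS m t (x, y)) (h' : nx m t U (x, y) = (x', y')) :
    P (x, y) ↔ P (x', y') := by
  rw [hP _ h, h']

theorem inv_top (hm : 1 ≤ m) {P : ℤ × ℤ → Prop}
    (hP : ∀ p, InS m t p → (P p ↔ P (nx m t U p))) :
    (∀ c : ℕ, 2 * c + 2 ≤ 6 * m → (P (2 * c, 8) ↔ P (0, 8))) ∧
    (∀ x : ℤ, InS m t (x, 8) → (P (x, 8) ↔ P (0, 8))) ∧ (P (0, 8) ↔ P (0, 4)) ∧
    (P (6 * m - 2, 6) ↔ P (0, 8)) ∧ (P (0, 6) ↔ P (0, 8)) := by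
  have h1 : ∀ c : ℕ, 2 * c + 2 ≤ 6 * m → (P (2 * c, 8) ↔ P (0, 8)) := by
    intro c
    induction c with
    | zero => intro _; simp
    | succ c ih =>
      intro hc
      have ih' := ih (by omega)
      by_cases hx : 2 * c + 1 < 2 * t
      · have s1 := inv_step hP (2 * (c + 1)) 8 (2 * c + 1) 8
          ⟨by dsimp only; omega, by dsimp only; omega, by dsimp only; omega⟩ (by
            unfold nx
            dsimp only
            split_ifs <;> first | (exfalso; omega) | (ext <;> dsimp only <;> omega))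
        have s2 := inv_step hP (2 * c + 1) 8 (2 * c) 8
          ⟨by dsimp only; omega, by dsimp only; omega, by dsimp only; omega⟩ (by
            unfold nx
            dsimp only
            split_ifs <;> first | (exfalso; omega) | (ext <;> dsimp only <;> omega))
        push_cast
        rw [s1, s2]
        exact ih'
      · have s1 := inv_step hP (2 * (c + 1)) 8 (2 * c) 8
          ⟨by dsimp only; omega, by dsimp only; omega, by dsimp only; omega⟩ (by
            unfold nx
            dsimp only
            split_ifs <;> first | (exfalso; omega) | (ext <;> dsimp only <;> omega))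
        push_cast
        rw [s1]
        exact ih'
  have h6 : P (0, 6) ↔ P (0, 8) := by
    refine (inv_step hP 0 8 0 6 ⟨by dsimp only; omega, by dsimp only; omega, by
      dsimp only; omega⟩ ?_).symm
    unfold nx
    dsimp only
    split_ifs <;> first | (exfalso; omega) | rfl
  refine ⟨h1, fun x hx => ?_, ?_, ?_, h6⟩
  · obtain ⟨g1, g2, g3⟩ := hx
    dsimp only at g1 g2 g3
    rcases Int.emod_two_eq_zero_or_one x with h | h
    · obtain ⟨c, rfl⟩ : ∃ c : ℕ, x = 2 * c := ⟨(x / 2).toNat, by omega⟩
      exact h1 c (by omega)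
    · obtain ⟨c, rfl⟩ : ∃ c : ℕ, x = 2 * c + 1 := ⟨(x / 2).toNat, by omega⟩
      have s2 := inv_step hP (2 * c + 1) 8 (2 * c) 8
          ⟨by dsimp only; omega, by dsimp only; omega, by dsimp only; omega⟩ (by
            unfold nx
            dsimp only
            split_ifs <;> first | (exfalso; omega) | (ext <;> dsimp only <;> omega))
      rw [s2]
      exact h1 c (by omega)
  · rw [← h6]
    refine inv_step hP 0 6 0 4 ⟨by dsimp only; omega, by dsimp only; omega, by
      dsimp only; omega⟩ ?_
    unfold nx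
    dsimp only
    split_ifs <;> first | (exfalso; omega) | rfl
  · have s1 := inv_step hP (6 * m - 2) 6 (6 * m - 2) 8
      ⟨by dsimp only; omega, by dsimp only; omega, by dsimp only; omega⟩ (by
        unfold nx
        dsimp only
        split_ifs <;> first | (exfalso; omega) | (ext <;> dsimp only <;> omega))
    have s2 := h1 (3 * m - 1) (by omega)
    rw [s1, ← s2]
    have : (2 : ℤ) * ((3 * m - 1 : ℕ) : ℤ) = 6 * m - 2 := by omega
    rw [this]

theorem inv_bot (hm : 1 ≤ m) {P : ℤ × ℤ → Prop}
    (hP : ∀ p, InS m t p → (P p ↔ P (nx m t U p))) :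
    (∀ c : ℕ, 2 * c + 2 ≤ 6 * m → (P (2 * c, -4) ↔ P (0, -4))) ∧
    (∀ x : ℤ, InS m t (x, -4) → (P (x, -4) ↔ P (0, -4))) ∧ (P (0, -4) ↔ P (0, 0)) ∧
    (P (6 * m - 2, -2) ↔ P (0, -4)) ∧ (P (0, -2) ↔ P (0, -4)) := by
  have h1 : ∀ c : ℕ, 2 * c + 2 ≤ 6 * m → (P (2 * c, -4) ↔ P (0, -4)) := by
    intro c
    induction c with
    | zero => intro _; simp
    | succ c ih =>
      intro hc
      have ih' := ih (by omega)
      have s1 := inv_step hP (2 * (c + 1)) (-4) (2 * c) (-4)
          ⟨by dsimp only; omega, by dsimp only; omega, by dsimp only; omega⟩ (by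
            unfold nx
            dsimp only
            split_ifs <;> first | (exfalso; omega) | (ext <;> dsimp only <;> omega))
      push_cast
      rw [s1]
      exact ih'
  have h6 : P (0, -2) ↔ P (0, -4) := by
    refine (inv_step hP 0 (-4) 0 (-2) ⟨by dsimp only; omega, by dsimp only; omega, by
      dsimp only; omega⟩ ?_).symm
    unfold nx
    dsimp only
    split_ifs <;> first | (exfalso; omega) | rfl
  refine ⟨h1, fun x hx => ?_, ?_, ?_, h6⟩
  · obtain ⟨g1, g2, g3⟩ := hx
    dsimp only at g1 g2 g3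
    obtain ⟨c, rfl⟩ : ∃ c : ℕ, x = 2 * c := ⟨(x / 2).toNat, by omega⟩
    exact h1 c (by omega)
  · rw [← h6]
    refine inv_step hP 0 (-2) 0 0 ⟨by dsimp only; omega, by dsimp only; omega, by
      dsimp only; omega⟩ ?_
    unfold nx
    dsimp only
    split_ifs <;> first | (exfalso; omega) | rfl
  · have s1 := inv_step hP (6 * m - 2) (-2) (6 * m - 2) (-4)
      ⟨by dsimp only; omega, by dsimp only; omega, by dsimp only; omega⟩ (by
        unfold nx
        dsimp only
        split_ifs <;> first | (exfalso; omega) | (ext <;> dsimp only <;> omega))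
    have s2 := h1 (3 * m - 1) (by omega)
    rw [s1, ← s2]
    have : (2 : ℤ) * ((3 * m - 1 : ℕ) : ℤ) = 6 * m - 2 := by omega
    rw [this]

/-- the inner rail of the upper loop -/
theorem inv_in_top {P : ℤ × ℤ → Prop}
    (hP : ∀ p, InS m t p → (P p ↔ P (nx m t U p))) (i : ℕ) (hi : i < m) :
    (P (6 * i, 4) ↔ P (0, 4)) ∧ (P (6 * i + 2, 4) ↔ P (0, 4)) ∧ (P (6 * i + 4, 4) ↔ P (0, 4)) ∧
    (U i = true → (P (6 * i, 2) ↔ P (0, 4)) ∧ (P (6 * i + 1, 2) ↔ P (0, 4)) ∧
      (P (6 * i + 2, 2) ↔ P (0, 4))) := by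
  have hd : ∀ i : ℕ, ((6 * i : ℤ)) / 6 = i := by intro i; omega
  have hd2 : ∀ i : ℕ, ((6 * i + 2 : ℤ)) / 6 = i := by intro i; omega
  have blk : ∀ i : ℕ, i < m → (P (6 * i + 2, 4) ↔ P (6 * i, 4)) ∧
      (P (6 * i + 4, 4) ↔ P (6 * i, 4)) ∧ (U i = true → (P (6 * i, 2) ↔ P (6 * i, 4)) ∧
        (P (6 * i + 1, 2) ↔ P (6 * i, 4)) ∧ (P (6 * i + 2, 2) ↔ P (6 * i, 4))) := by
    intro i hi
    have s3 := inv_step hP (6 * i + 2) 4 (6 * i + 4) 4
      ⟨by dsimp only; omega, by dsimp only; omega, by dsimp only; omega⟩ (by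
        unfold nx
        dsimp only
        split_ifs <;> first | (exfalso; omega) | (ext <;> dsimp only <;> omega))
    by_cases hU : U i = true
    · have s1 := inv_step hP (6 * i) 4 (6 * i) 2
        ⟨by dsimp only; omega, by dsimp only; omega, by dsimp only; omega⟩ (by
          unfold nx
          dsimp only
          rw [hd, hU]
          split_ifs <;> first | (exfalso; omega) | (ext <;> dsimp only <;> omega) | simp_all)
      have s2 := inv_step hP (6 * i) 2 (6 * i + 1) 2
        ⟨by dsimp only; omega, by dsimp only; omega, by dsimp only; omega⟩ (by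
          unfold nx
          dsimp only
          split_ifs <;> first | (exfalso; omega) | (ext <;> dsimp only <;> omega))
      have s4 := inv_step hP (6 * i + 1) 2 (6 * i + 2) 2
        ⟨by dsimp only; omega, by dsimp only; omega, by dsimp only; omega⟩ (by
          unfold nx
          dsimp only
          split_ifs <;> first | (exfalso; omega) | (ext <;> dsimp only <;> omega))
      have s5 := inv_step hP (6 * i + 2) 2 (6 * i + 2) 4
        ⟨by dsimp only; omega, by dsimp only; omega, by dsimp only; omega⟩ (by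
          unfold nx
          dsimp only
          rw [hd2, hU]
          split_ifs <;> first | (exfalso; omega) | (ext <;> dsimp only <;> omega) | simp_all)
      tauto
    · have s1 := inv_step hP (6 * i) 4 (6 * i + 2) 4
        ⟨by dsimp only; omega, by dsimp only; omega, by dsimp only; omega⟩ (by
          unfold nx
          dsimp only
          rw [hd]
          split_ifs <;> first | (exfalso; omega) | (ext <;> dsimp only <;> omega) | simp_all)
      tauto
  have h1 : ∀ i : ℕ, i < m → (P (6 * i, 4) ↔ P (0, 4)) := by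
    intro i
    induction i with
    | zero => intro _; simp
    | succ i ih =>
      intro hi
      have g1 := ih (by omega)
      have g2 := (blk i (by omega)).2.1
      have s1 := inv_step hP (6 * i + 4) 4 (6 * (i + 1)) 4
        ⟨by dsimp only; omega, by dsimp only; omega, by dsimp only; omega⟩ (by
          unfold nx
          dsimp only
          split_ifs <;> first | (exfalso; omega) | (ext <;> dsimp only <;> omega))
      push_cast
      tauto
  have h2 := h1 i hi
  have h3 := blk i hi
  tauto

/-- the inner rail of the lower loop -/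
theorem inv_in_bot {P : ℤ × ℤ → Prop}
    (hP : ∀ p, InS m t p → (P p ↔ P (nx m t U p))) (i : ℕ) (hi : i < m) :
    (P (6 * i, 0) ↔ P (0, 0)) ∧ (P (6 * i + 2, 0) ↔ P (0, 0)) ∧ (P (6 * i + 4, 0) ↔ P (0, 0)) ∧
    (U i = false → (P (6 * i, 2) ↔ P (0, 0)) ∧ (P (6 * i + 1, 2) ↔ P (0, 0)) ∧
      (P (6 * i + 2, 2) ↔ P (0, 0))) := by
  have hd : ∀ i : ℕ, ((6 * i : ℤ)) / 6 = i := by intro i; omega
  have hd2 : ∀ i : ℕ, ((6 * i + 2 : ℤ)) / 6 = i := by intro i; omega
  have blk : ∀ i : ℕ, i < m → (P (6 * i + 2, 0) ↔ P (6 * i, 0)) ∧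
      (P (6 * i + 4, 0) ↔ P (6 * i, 0)) ∧ (U i = false → (P (6 * i, 2) ↔ P (6 * i, 0)) ∧
        (P (6 * i + 1, 2) ↔ P (6 * i, 0)) ∧ (P (6 * i + 2, 2) ↔ P (6 * i, 0))) := by
    intro i hi
    have s3 := inv_step hP (6 * i + 2) 0 (6 * i + 4) 0
      ⟨by dsimp only; omega, by dsimp only; omega, by dsimp only; omega⟩ (by
        unfold nx
        dsimp only
        split_ifs <;> first | (exfalso; omega) | (ext <;> dsimp only <;> omega))
    by_cases hU : U i = false
    · have s1 := inv_step hP (6 * i) 0 (6 * i) 2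
        ⟨by dsimp only; omega, by dsimp only; omega, by dsimp only; omega⟩ (by
          unfold nx
          dsimp only
          rw [hd, hU]
          split_ifs <;> first | (exfalso; omega) | (ext <;> dsimp only <;> omega) | simp_all)
      have s2 := inv_step hP (6 * i) 2 (6 * i + 1) 2
        ⟨by dsimp only; omega, by dsimp only; omega, by dsimp only; omega⟩ (by
          unfold nx
          dsimp only
          split_ifs <;> first | (exfalso; omega) | (ext <;> dsimp only <;> omega))
      have s4 := inv_step hP (6 * i + 1) 2 (6 * i + 2) 2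
        ⟨by dsimp only; omega, by dsimp only; omega, by dsimp only; omega⟩ (by
          unfold nx
          dsimp only
          split_ifs <;> first | (exfalso; omega) | (ext <;> dsimp only <;> omega))
      have s5 := inv_step hP (6 * i + 2) 2 (6 * i + 2) 0
        ⟨by dsimp only; omega, by dsimp only; omega, by dsimp only; omega⟩ (by
          unfold nx
          dsimp only
          rw [hd2, hU]
          split_ifs <;> first | (exfalso; omega) | (ext <;> dsimp only <;> omega) | simp_all)
      tauto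
    · have s1 := inv_step hP (6 * i) 0 (6 * i + 2) 0
        ⟨by dsimp only; omega, by dsimp only; omega, by dsimp only; omega⟩ (by
          unfold nx
          dsimp only
          rw [hd]
          split_ifs <;> first | (exfalso; omega) | (ext <;> dsimp only <;> omega) | simp_all)
      tauto
  have h1 : ∀ i : ℕ, i < m → (P (6 * i, 0) ↔ P (0, 0)) := by
    intro i
    induction i with
    | zero => intro _; simp
    | succ i ih =>
      intro hi
      have g1 := ih (by omega)
      have g2 := (blk i (by omega)).2.1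
      have s1 := inv_step hP (6 * i + 4) 0 (6 * (i + 1)) 0
        ⟨by dsimp only; omega, by dsimp only; omega, by dsimp only; omega⟩ (by
          unfold nx
          dsimp only
          split_ifs <;> first | (exfalso; omega) | (ext <;> dsimp only <;> omega))
      push_cast
      tauto
  have h2 := h1 i hi
  have h3 := blk i hi
  tauto

/-- An invariant property has one value on each loop. -/
theorem inv_all (hm : 1 ≤ m) {P : ℤ × ℤ → Prop}
    (hP : ∀ p, InS m t p → (P p ↔ P (nx m t U p))) {p : ℤ × ℤ} (hp : InS m t p) :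
    (4 ≤ p.2 → (P p ↔ P (0, 8))) ∧ (p.2 ≤ 0 → (P p ↔ P (0, -4))) ∧
    (p.2 = 2 → (P p ↔ if U (p.1 / 6) = true then P (0, 8) else P (0, -4))) := by
  obtain ⟨x, y⟩ := p
  obtain ⟨a1, a2, a3, a4, a5⟩ := inv_top hm hP
  obtain ⟨b1, b2, b3, b4, b5⟩ := inv_bot hm hP
  have hp' := hp
  obtain ⟨h1, h2, h3⟩ := hp
  dsimp only at h1 h2 h3 ⊢
  obtain ⟨i, hi⟩ : ∃ i : ℕ, x / 6 = i := ⟨(x / 6).toNat, by omega⟩
  have him : i < m := by omega
  obtain ⟨c1, c2, c3, c4⟩ := inv_in_top hP i him
  obtain ⟨d1, d2, d3, d4⟩ := inv_in_bot hP i him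
  rcases h3 with ⟨rfl, h⟩ | ⟨rfl, h⟩ | ⟨rfl, h⟩ | ⟨rfl, h⟩ | ⟨rfl, h⟩ | ⟨rfl, h⟩ | ⟨rfl, h⟩
  · refine ⟨fun _ => a2 x hp', fun h => by omega, fun h => by omega⟩
  · refine ⟨fun _ => ?_, fun h => by omega, fun h => by omega⟩
    rcases h with rfl | rfl
    · exact a5
    · exact a4
  · refine ⟨fun _ => ?_, fun h => by omega, fun h => by omega⟩
    rw [a3]
    have : x = 6 * i ∨ x = 6 * i + 2 ∨ x = 6 * i + 4 := by omega
    rcases this with rfl | rfl | rfl
    · exact c1
    · exact c2
    · exact c3
  · refine ⟨fun h => by omega, fun h => by omega, fun _ => ?_⟩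
    rw [hi]
    have : x = 6 * i ∨ x = 6 * i + 1 ∨ x = 6 * i + 2 := by omega
    split_ifs with hU
    · rw [a3]
      have e4 := c4 hU
      rcases ‹x = 6 * i ∨ x = 6 * i + 1 ∨ x = 6 * i + 2› with rfl | rfl | rfl
      · exact e4.1
      · exact e4.2.1
      · exact e4.2.2
    · rw [b3]
      have e4 := d4 (by simpa using hU)
      rcases ‹x = 6 * i ∨ x = 6 * i + 1 ∨ x = 6 * i + 2› with rfl | rfl | rfl
      · exact e4.1
      · exact e4.2.1
      · exact e4.2.2
  · refine ⟨fun h => by omega, fun _ => ?_, fun h => by omega⟩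
    rw [b3]
    have : x = 6 * i ∨ x = 6 * i + 2 ∨ x = 6 * i + 4 := by omega
    rcases this with rfl | rfl | rfl
    · exact d1
    · exact d2
    · exact d3
  · refine ⟨fun h => by omega, fun _ => ?_, fun h => by omega⟩
    rcases h with rfl | rfl
    · exact b5
    · exact b4
  · refine ⟨fun h => by omega, fun _ => b2 x hp', fun h => by omega⟩

end Pool.Agent.T9h88.BB
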