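import Pool.Agent.T9h88.BB.Abs

/-!
# Two loops and dominoes between them
-/

set_option autoImplicit false

namespace Pool.Agent.T9h88.BB

open Finset

/-- the points of the instance: the upper loop has rails at heights `8` and `4`, the lower loop at
heights `0` and `-4`; domino `i` consists of `(6 i, 2)`, `(6 i + 1, 2)`, `(6 i + 2, 2)`; there are
`t` additional points on the top rail -/
def InS (m t : ℕ) (p : ℤ × ℤ) : Prop :=
  0 ≤ p.1 ∧ p.1 ≤ 6 * m - 2 ∧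
  ((p.2 = 8 ∧ (p.1 % 2 = 0 ∨ p.1 < 2 * t)) ∨ (p.2 = 6 ∧ (p.1 = 0 ∨ p.1 = 6 * m - 2)) ∨
    (p.2 = 4 ∧ p.1 % 2 = 0) ∨ (p.2 = 2 ∧ p.1 % 6 ≤ 2) ∨ (p.2 = 0 ∧ p.1 % 2 = 0) ∨
    (p.2 = -2 ∧ (p.1 = 0 ∨ p.1 = 6 * m - 2)) ∨ (p.2 = -4 ∧ p.1 % 2 = 0))

instance (m t : ℕ) : DecidablePred (InS m t) := fun p => by unfold InS; infer_instance

/-- the point set -/
noncomputable def S (m t : ℕ) : Finset (ℤ × ℤ) :=
  ((Icc (0 : ℤ) (6 * m - 2)) ×ˢ (Icc (-4 : ℤ) 8)).filter (InS m t)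

theorem mem_S {m t : ℕ} {p : ℤ × ℤ} : p ∈ S m t ↔ InS m t p := by
  unfold S
  rw [mem_filter, mem_product, mem_Icc, mem_Icc]
  refine ⟨fun h => h.2, fun h => ⟨⟨⟨h.1, h.2.1⟩, ?_⟩, h⟩⟩
  have := h.2.2
  omega

/-- the next point; `U i` tells whether domino `i` belongs to the upper loop -/
def nx (m t : ℕ) (U : ℤ → Bool) (p : ℤ × ℤ) : ℤ × ℤ :=
  if p.2 = 4 then
    if p.1 = 6 * m - 2 then (p.1, 6) else if p.1 % 6 = 0 ∧ U (p.1 / 6) = true then (p.1, 2)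
      else (p.1 + 2, 4)
  else if p.2 = 6 then if p.1 = 0 then (0, 4) else (p.1, 8)
  else if p.2 = 8 then
    if p.1 = 0 then (0, 6) else if p.1 % 2 = 1 ∨ p.1 - 1 < 2 * t then (p.1 - 1, 8)
      else (p.1 - 2, 8)
  else if p.2 = 2 then
    if p.1 % 6 = 2 then (if U (p.1 / 6) = true then (p.1, 4) else (p.1, 0)) else (p.1 + 1, 2)
  else if p.2 = 0 then
    if p.1 = 6 * m - 2 then (p.1, -2) else if p.1 % 6 = 0 ∧ U (p.1 / 6) = false then (p.1, 2)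
      else (p.1 + 2, 0)
  else if p.2 = -2 then if p.1 = 0 then (0, 0) else (p.1, -4)
  else if p.1 = 0 then (0, -2) else (p.1 - 2, -4)

/-- the previous point -/
def pv (m t : ℕ) (U : ℤ → Bool) (p : ℤ × ℤ) : ℤ × ℤ :=
  if p.2 = 4 then
    if p.1 = 0 then (0, 6) else if p.1 % 6 = 2 ∧ U (p.1 / 6) = true then (p.1, 2)
      else (p.1 - 2, 4)
  else if p.2 = 6 then if p.1 = 0 then (0, 8) else (p.1, 4)
  else if p.2 = 8 then
    if p.1 = 6 * m - 2 then (p.1, 6) else if p.1 % 2 = 1 ∨ p.1 + 1 < 2 * t then (p.1 + 1, 8)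
      else (p.1 + 2, 8)
  else if p.2 = 2 then
    if p.1 % 6 = 0 then (if U (p.1 / 6) = true then (p.1, 4) else (p.1, 0)) else (p.1 - 1, 2)
  else if p.2 = 0 then
    if p.1 = 0 then (0, -2) else if p.1 % 6 = 2 ∧ U (p.1 / 6) = false then (p.1, 2)
      else (p.1 - 2, 0)
  else if p.2 = -2 then if p.1 = 0 then (0, -4) else (p.1, 0)
  else if p.1 = 6 * m - 2 then (p.1, -2) else (p.1 + 2, -4)

variable {m t : ℕ} {U : ℤ → Bool}

theorem nx_mem (hm : 1 ≤ m) {p : ℤ × ℤ} (hp : InS m t p) : InS m t (nx m t U p) := by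
  obtain ⟨x, y⟩ := p
  obtain ⟨h1, h2, h3⟩ := hp
  simp only at h1 h2 h3
  unfold nx InS
  rcases h3 with ⟨rfl, h⟩ | ⟨rfl, h⟩ | ⟨rfl, h⟩ | ⟨rfl, h⟩ | ⟨rfl, h⟩ | ⟨rfl, h⟩ | ⟨rfl, h⟩ <;>
    simp only [if_false, if_true, Int.reduceEq, Int.reduceNeg] <;>
    split_ifs <;> dsimp only <;> omega

theorem pv_mem {p : ℤ × ℤ} (hp : InS m t p) : InS m t (pv m t U p) := by
  obtain ⟨x, y⟩ := p
  obtain ⟨h1, h2, h3⟩ := hp
  simp only at h1 h2 h3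
  unfold pv InS
  rcases h3 with ⟨rfl, h⟩ | ⟨rfl, h⟩ | ⟨rfl, h⟩ | ⟨rfl, h⟩ | ⟨rfl, h⟩ | ⟨rfl, h⟩ | ⟨rfl, h⟩ <;>
    simp only [if_false, if_true, Int.reduceEq, Int.reduceNeg] <;>
    split_ifs <;> dsimp only <;> omega

theorem pv_nx {p : ℤ × ℤ} (hp : InS m t p) :
    pv m t U (nx m t U p) = p := by
  obtain ⟨x, y⟩ := p
  obtain ⟨h1, h2, h3⟩ := hp
  simp only at h1 h2 h3
  have e1 : x % 6 = 0 → U ((x + 2) / 6) = U (x / 6) := fun h => by congr 1; omega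
  unfold nx
  rcases h3 with ⟨rfl, h⟩ | ⟨rfl, h⟩ | ⟨rfl, h⟩ | ⟨rfl, h⟩ | ⟨rfl, h⟩ | ⟨rfl, h⟩ | ⟨rfl, h⟩ <;>
    simp only [if_false, if_true, Int.reduceEq, Int.reduceNeg] <;>
    split_ifs <;> unfold pv <;> simp only [if_false, if_true, Int.reduceEq, Int.reduceNeg] <;>
    (try split_ifs) <;> first
      | (ext <;> dsimp only <;> omega)
      | (exfalso; omega)
      | (exfalso; have e2 : x % 6 = 0 := by omega
         have e3 := e1 e2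
         simp_all)
      | (exfalso; simp_all)

theorem nx_pv {p : ℤ × ℤ} (hp : InS m t p) :
    nx m t U (pv m t U p) = p := by
  obtain ⟨x, y⟩ := p
  obtain ⟨h1, h2, h3⟩ := hp
  simp only at h1 h2 h3
  have e1 : x % 6 = 2 → U ((x - 2) / 6) = U (x / 6) := fun h => by congr 1; omega
  unfold pv
  rcases h3 with ⟨rfl, h⟩ | ⟨rfl, h⟩ | ⟨rfl, h⟩ | ⟨rfl, h⟩ | ⟨rfl, h⟩ | ⟨rfl, h⟩ | ⟨rfl, h⟩ <;>
    simp only [if_false, if_true, Int.reduceEq, Int.reduceNeg] <;>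
    split_ifs <;> unfold nx <;> simp only [if_false, if_true, Int.reduceEq, Int.reduceNeg] <;>
    (try split_ifs) <;> first
      | (ext <;> dsimp only <;> omega)
      | (exfalso; omega)
      | (exfalso; have e2 : x % 6 = 2 := by omega
         have e3 := e1 e2
         simp_all)
      | (exfalso; simp_all)

theorem nx_ne {p : ℤ × ℤ} (hp : InS m t p) : nx m t U p ≠ p := by
  obtain ⟨x, y⟩ := p
  obtain ⟨h1, h2, h3⟩ := hp
  simp only at h1 h2 h3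
  unfold nx
  intro h4
  rcases h3 with ⟨rfl, h⟩ | ⟨rfl, h⟩ | ⟨rfl, h⟩ | ⟨rfl, h⟩ | ⟨rfl, h⟩ | ⟨rfl, h⟩ | ⟨rfl, h⟩ <;>
    simp only [if_false, if_true, Int.reduceEq, Int.reduceNeg] at h4 <;>
    split_ifs at h4 <;> rw [Prod.ext_iff] at h4 <;> dsimp only at h4 <;> omega

theorem nx_ne_pv {p : ℤ × ℤ} (hp : InS m t p) :
    nx m t U p ≠ pv m t U p := by
  obtain ⟨x, y⟩ := p
  obtain ⟨h1, h2, h3⟩ := hp
  simp only at h1 h2 h3
  unfold nx pv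
  intro h4
  rcases h3 with ⟨rfl, h⟩ | ⟨rfl, h⟩ | ⟨rfl, h⟩ | ⟨rfl, h⟩ | ⟨rfl, h⟩ | ⟨rfl, h⟩ | ⟨rfl, h⟩ <;>
    simp only [if_false, if_true, Int.reduceEq, Int.reduceNeg] at h4 <;>
    split_ifs at h4 <;> rw [Prod.ext_iff] at h4 <;> dsimp only at h4 <;> omega

/-- the radius of a point -/
def rd (p : ℤ × ℤ) : ℤ := if p.1 % 2 = 0 then 1 else 0

/-- distinct points are far enough apart -/
theorem sep {p q : ℤ × ℤ} (hp : InS m t p) (hq : InS m t q) (hne : p ≠ q) :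
    (rd p + rd q) ^ 2 ≤ (p.1 - q.1) ^ 2 + (p.2 - q.2) ^ 2 := by
  obtain ⟨x, y⟩ := p
  obtain ⟨x', y'⟩ := q
  have h0 : x ≠ x' ∨ y ≠ y' := by
    by_contra h; push Not at h; exact hne (by rw [h.1, h.2])
  obtain ⟨h1, h2, h3⟩ := hp
  obtain ⟨g1, g2, g3⟩ := hq
  simp only at h1 h2 h3 g1 g2 g3 ⊢
  have hy : y % 2 = 0 := by omega
  have hy' : y' % 2 = 0 := by omega
  have sq1 : ∀ a : ℤ, a ≠ 0 → 1 ≤ a ^ 2 := fun a ha => by
    rcases lt_or_gt_of_ne ha with h | h <;> nlinarith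
  have sq2 : ∀ a : ℤ, a ≠ 0 → a % 2 = 0 → 4 ≤ a ^ 2 := fun a ha h2 => by
    have : a ≤ -2 ∨ 2 ≤ a := by omega
    rcases this with h | h <;> nlinarith
  have hx0 := sq_nonneg (x - x')
  have hy0 := sq_nonneg (y - y')
  unfold rd
  dsimp only
  split_ifs with c1 c2 c2
  · rcases h0 with h | h
    · have := sq2 (x - x') (by omega) (by omega); linarith
    · have := sq2 (y - y') (by omega) (by omega); linarith
  · have := sq1 (x - x') (by omega); linarith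
  · have := sq1 (x - x') (by omega); linarith
  · nlinarith

/-- the steps of the loops are tight -/
theorem nx_tight {p : ℤ × ℤ} (hp : InS m t p) :
    (p.1 - (nx m t U p).1) ^ 2 + (p.2 - (nx m t U p).2) ^ 2 = (rd p + rd (nx m t U p)) ^ 2 := by
  obtain ⟨x, y⟩ := p
  obtain ⟨h1, h2, h3⟩ := hp
  simp only at h1 h2 h3
  unfold nx rd
  rcases h3 with ⟨rfl, h⟩ | ⟨rfl, h⟩ | ⟨rfl, h⟩ | ⟨rfl, h⟩ | ⟨rfl, h⟩ | ⟨rfl, h⟩ | ⟨rfl, h⟩ <;>
    simp only [if_false, if_true, Int.reduceEq, Int.reduceNeg] <;>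
    split_ifs <;> dsimp only at * <;> first
      | (exfalso; omega)
      | (subst_vars; norm_num; done)
      | (ring_nf; done)

end Pool.Agent.T9h88.BB
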