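import Pool.Agent.T9h88.BB.Gen

/-!
# The two loops as a permutation, and merging them
-/

set_option autoImplicit false

namespace Pool.Agent.T9h88.BB

open Finset

/-- a permutation that is one cycle through all points -/
def OneCycle {V : Type} (σ : Equiv.Perm V) : Prop := ∀ p q, ∃ k : ℕ, (σ ^ k) p = q

section merge

variable {V : Type} [Fintype V] [DecidableEq V]

theorem oneCycle_of_inv {σ : Equiv.Perm V}
    (h : ∀ T : Finset V, (∀ p, p ∈ T ↔ σ p ∈ T) → T.Nonempty → T = univ) : OneCycle σ := by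
  classical
  intro p q
  have h1 := h (univ.filter fun q => σ.SameCycle p q) (fun x => by
    simp only [mem_filter, mem_univ, true_and]
    exact Equiv.Perm.sameCycle_apply_right.symm)
    ⟨p, mem_filter.2 ⟨mem_univ _, Equiv.Perm.SameCycle.refl _ _⟩⟩
  have h2 : q ∈ univ.filter fun q => σ.SameCycle p q := by rw [h1]; exact mem_univ _
  rw [mem_filter] at h2
  obtain ⟨k, -, h3⟩ := h2.2.exists_pow_eq'
  exact ⟨k, h3⟩

theorem inv_of_oneCycle {σ : Equiv.Perm V} (h : OneCycle σ) (T : Finset V)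
    (hT : ∀ p ∈ T, σ p ∈ T) (hn : T.Nonempty) : T = univ := by
  obtain ⟨p, hp⟩ := hn
  rw [eq_univ_iff_forall]
  intro q
  obtain ⟨k, rfl⟩ := h p q
  induction k with
  | zero => simpa using hp
  | succ k ih =>
    rw [pow_succ', Equiv.Perm.mul_apply]
    exact hT _ ih

/-- a set that is not invariant is entered and left -/
theorem exists_enter {σ : Equiv.Perm V} {T : Finset V} (h : (ex σ T).Nonempty) :
    ∃ y, y ∉ T ∧ σ y ∈ T := by
  have h1 := card_enter σ T
  have h2 : 0 < (Tᶜ.filter fun p => σ p ∈ T).card := by rw [h1]; exact card_pos.2 h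
  obtain ⟨y, hy⟩ := card_pos.1 h2
  rw [mem_filter, mem_compl] at hy
  exact ⟨y, hy⟩

theorem inv_of_ex {σ : Equiv.Perm V} {T : Finset V} (h : ex σ T = ∅) (p : V) :
    p ∈ T ↔ σ p ∈ T := by
  constructor
  · intro hp
    by_contra h'
    have : p ∈ ex σ T := mem_filter.2 ⟨hp, h'⟩
    rw [h] at this
    simp at this
  · intro hp
    by_contra h'
    have h1 := card_enter σ T
    rw [h, card_empty] at h1
    have : p ∈ Tᶜ.filter fun p => σ p ∈ T := mem_filter.2 ⟨mem_compl.2 h', hp⟩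
    rw [card_eq_zero.1 h1] at this
    simp at this

/-- Merging the two classes of a permutation gives one cycle. -/
theorem merge {σ : Equiv.Perm V} (A : V → Prop) (hA : ∀ p, A p ↔ A (σ p))
    (hcl : ∀ T : Finset V, (∀ p, p ∈ T ↔ σ p ∈ T) → ∀ p q, (A p ↔ A q) → (p ∈ T ↔ q ∈ T))
    {a b : V} (ha : A a) (hb : ¬ A b) : OneCycle (σ * Equiv.swap a b) := by
  classical
  refine oneCycle_of_inv fun T hT hn => ?_
  have hab : a ≠ b := fun h => hb (h ▸ ha)
  have hTa : a ∈ T ↔ σ b ∈ T := by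
    rw [hT a, Equiv.Perm.mul_apply, Equiv.swap_apply_left]
  have hTb : b ∈ T ↔ σ a ∈ T := by
    rw [hT b, Equiv.Perm.mul_apply, Equiv.swap_apply_right]
  have hTo : ∀ p, p ≠ a → p ≠ b → (p ∈ T ↔ σ p ∈ T) := by
    intro p h1 h2
    rw [hT p, Equiv.Perm.mul_apply, Equiv.swap_apply_of_ne_of_ne h1 h2]
  -- the part of `T` in one class is invariant under `σ`
  have part : ∀ (Q : V → Prop) [DecidablePred Q] (c d : V), (∀ p, Q p ↔ Q (σ p)) → Q c → ¬ Q d →
      (∀ p, p ≠ c → p ≠ d → (p ∈ T ↔ σ p ∈ T)) →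
      ∀ p, p ∈ T.filter Q ↔ σ p ∈ T.filter Q := by
    intro Q _ c d hQ hc hd ho
    refine inv_of_ex ?_
    by_contra hne
    have hne' : (ex σ (T.filter Q)).Nonempty := nonempty_iff_ne_empty.2 hne
    obtain ⟨y, hy1, hy2⟩ := exists_enter hne'
    obtain ⟨x, hx⟩ := hne'
    rw [ex, mem_filter, mem_filter, mem_filter] at hx
    rw [mem_filter] at hy1 hy2
    have hx1 : x = c := by
      by_contra h
      have hxd : x ≠ d := fun h' => hd (h' ▸ hx.1.2)
      exact hx.2 ⟨(ho x h hxd).1 hx.1.1, (hQ x).1 hx.1.2⟩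
    have hyQ : Q y := (hQ y).2 hy2.2
    have hy3 : y = c := by
      by_contra h
      have hyd : y ≠ d := fun h' => hd (h' ▸ hyQ)
      exact hy1 ⟨(ho y h hyd).2 hy2.1, hyQ⟩
    exact hy1 ⟨by rw [hy3, ← hx1]; exact hx.1.1, hyQ⟩
  have pA := part A a b hA ha hb hTo
  have pB := part (fun p => ¬ A p) b a (fun p => not_congr (hA p)) hb (not_not.2 ha)
    fun p h1 h2 => hTo p h2 h1
  have cA : ∀ p q, A p → A q → (p ∈ T ↔ q ∈ T) := by
    intro p q hp hq
    have := hcl _ pA p q (by tauto)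
    rw [mem_filter, mem_filter] at this
    tauto
  have cB : ∀ p q, ¬ A p → ¬ A q → (p ∈ T ↔ q ∈ T) := by
    intro p q hp hq
    have := hcl _ pB p q (by tauto)
    rw [mem_filter, mem_filter] at this
    tauto
  have hab' : a ∈ T ↔ b ∈ T := by
    rw [hTa]
    exact cB _ _ ((not_congr (hA b)).1 hb) hb
  obtain ⟨p, hp⟩ := hn
  have haT : a ∈ T := by
    by_cases h : A p
    · exact (cA p a h ha).1 hp
    · rw [hab']; exact (cB p b h hb).1 hp
  rw [eq_univ_iff_forall]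
  intro q
  by_cases h : A q
  · exact (cA a q ha h).1 haT
  · exact (cB b q hb h).1 (hab'.1 haT)

/-- merging inside a class does not change contracted sums -/
theorem sum_merge {κ : Type} (σ : Equiv.Perm V) (c : V → κ) (f : κ → κ → ℝ) {a b : V}
    (h : c a = c b) :
    ∑ p, f (c p) (c ((σ * Equiv.swap a b) p)) = ∑ p, f (c p) (c (σ p)) := by
  refine Fintype.sum_equiv (Equiv.swap a b) _ _ fun p => ?_
  rw [Equiv.Perm.mul_apply]
  congr 1
  by_cases h1 : p = a
  · rw [h1, Equiv.swap_apply_left, h]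
  · by_cases h2 : p = b
    · rw [h2, Equiv.swap_apply_right, h]
    · rw [Equiv.swap_apply_of_ne_of_ne h1 h2]

end merge

variable {m t : ℕ}

/-- extend the bits by zero -/
def extb (u : Fin m → Bool) (i : ℤ) : Bool :=
  if h : 0 ≤ i ∧ i < m then u ⟨i.toNat, by omega⟩ else false

theorem extb_nat (u : Fin m → Bool) (i : Fin m) : extb u (i : ℕ) = u i := by
  unfold extb
  have hi := i.2
  rw [dif_pos ⟨by omega, by omega⟩]
  congr 1

/-- the two loops -/
noncomputable def lp (t : ℕ) (hm : 1 ≤ m) (u : Fin m → Bool) : Equiv.Perm (S m t) where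
  toFun p := ⟨nx m t (extb u) p.1, mem_S.2 (nx_mem hm (mem_S.1 p.2))⟩
  invFun p := ⟨pv m t (extb u) p.1, mem_S.2 (pv_mem (mem_S.1 p.2))⟩
  left_inv p := Subtype.ext (pv_nx (mem_S.1 p.2))
  right_inv p := Subtype.ext (nx_pv (mem_S.1 p.2))

theorem lp_val (hm : 1 ≤ m) (u : Fin m → Bool) (p : S m t) :
    ((lp t hm u p : S m t) : ℤ × ℤ) = nx m t (extb u) p.1 := rfl

theorem lp_symm_val (hm : 1 ≤ m) (u : Fin m → Bool) (p : S m t) :
    (((lp t hm u).symm p : S m t) : ℤ × ℤ) = pv m t (extb u) p.1 := rfl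

/-- the upper loop -/
def Up (u : Fin m → Bool) (p : ℤ × ℤ) : Prop :=
  4 ≤ p.2 ∨ (p.2 = 2 ∧ extb u (p.1 / 6) = true)

theorem row_cases {p : ℤ × ℤ} (hp : InS m t p) : 4 ≤ p.2 ∨ p.2 = 2 ∨ p.2 ≤ 0 := by
  have := hp.2.2; omega

/-- the classes of an invariant property, by loops -/
theorem inv_loops (hm : 1 ≤ m) (u : Fin m → Bool) {P : ℤ × ℤ → Prop}
    (hP : ∀ p, InS m t p → (P p ↔ P (nx m t (extb u) p))) {p : ℤ × ℤ} (hp : InS m t p) :
    (Up u p → (P p ↔ P (0, 8))) ∧ (¬ Up u p → (P p ↔ P (0, -4))) := by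
  obtain ⟨h1, h2, h3⟩ := inv_all hm hP hp
  unfold Up
  rcases row_cases hp with h | h | h
  · exact ⟨fun _ => h1 h, fun h' => absurd (Or.inl h) h'⟩
  · have h4 := h3 h
    constructor
    · rintro (h5 | ⟨-, h5⟩)
      · omega
      · rw [if_pos h5] at h4; exact h4
    · intro h5
      have h6 : ¬ extb u (p.1 / 6) = true := fun h' => h5 (Or.inr ⟨h, h'⟩)
      rw [if_neg h6] at h4; exact h4
  · exact ⟨fun h' => by omega, fun _ => h2 h⟩

theorem up_nx (u : Fin m → Bool) {p : ℤ × ℤ} (hp : InS m t p) :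
    Up u p ↔ Up u (nx m t (extb u) p) := by
  obtain ⟨x, y⟩ := p
  obtain ⟨h1, h2, h3⟩ := hp
  simp only at h1 h2 h3
  have e1 : x % 6 ≤ 1 → (x + 1) / 6 = x / 6 := fun h => by omega
  unfold nx Up
  rcases h3 with ⟨rfl, h⟩ | ⟨rfl, h⟩ | ⟨rfl, h⟩ | ⟨rfl, h⟩ | ⟨rfl, h⟩ | ⟨rfl, h⟩ | ⟨rfl, h⟩ <;>
    simp only [if_false, if_true, Int.reduceEq, Int.reduceNeg, Int.reduceLE, false_and, true_and,
      or_false, false_or, true_or, true_iff] <;>
    split_ifs <;> dsimp only <;> first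
      | (simp; done)
      | (exfalso; omega)
      | (rw [e1 (by omega)]; simp; done)
      | (simp_all; done)

end Pool.Agent.T9h88.BB
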