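import Pool.Agent.T9h88.BB.Loop

/-!
# Cuts and contractions of the two loops
-/

set_option autoImplicit false

namespace Pool.Agent.T9h88.BB

open Finset

variable {m t : ℕ}

/-- the incidence vector of the two loops -/
noncomputable def zv (t : ℕ) (hm : 1 ≤ m) (u : Fin m → Bool) : Sym2 (S m t) → ℤ :=
  pvec (lp t hm u)

theorem nx_congr {U W : ℤ → Bool} {p : ℤ × ℤ} (h : U (p.1 / 6) = W (p.1 / 6)) :
    nx m t U p = nx m t W p := by
  unfold nx; rw [h]

theorem nx_far {U W : ℤ → Bool} {p : ℤ × ℤ} (hp : InS m t p)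
    (h : (nx m t U p).1 / 6 ≠ p.1 / 6) : nx m t W p = nx m t U p := by
  obtain ⟨x, y⟩ := p
  obtain ⟨h1, h2, h3⟩ := hp
  simp only at h1 h2 h3 h
  revert h
  unfold nx
  rcases h3 with ⟨rfl, h⟩ | ⟨rfl, h⟩ | ⟨rfl, h⟩ | ⟨rfl, h⟩ | ⟨rfl, h⟩ | ⟨rfl, h⟩ | ⟨rfl, h⟩ <;>
    simp only [if_false, if_true, Int.reduceEq, Int.reduceNeg] <;>
    split_ifs <;> dsimp only <;> intro h' <;> first
      | rfl
      | trivial
      | (exfalso; omega)

theorem blk_lt {p : ℤ × ℤ} (hp : InS m t p) : 0 ≤ p.1 / 6 ∧ p.1 / 6 < m := by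
  obtain ⟨h1, h2, h3⟩ := hp; omega

theorem extb_blk {u w : Fin m → Bool} {p : ℤ × ℤ} (hp : InS m t p)
    (h : u ⟨(p.1 / 6).toNat, by have := blk_lt hp; omega⟩ =
      w ⟨(p.1 / 6).toNat, by have := blk_lt hp; omega⟩) :
    extb u (p.1 / 6) = extb w (p.1 / 6) := by
  unfold extb
  rw [dif_pos (blk_lt hp), dif_pos (blk_lt hp)]
  exact h

theorem oneBit_zv (hm : 1 ≤ m) : OneBit (zv t hm) := by
  intro e
  induction e using Sym2.ind with
  | _ p q =>
    have hp := mem_S.1 p.2
    have hq := mem_S.1 q.2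
    refine ⟨⟨(p.1.1 / 6).toNat, by have := blk_lt hp; omega⟩, fun u w huw => ?_⟩
    have h1 := extb_blk hp huw
    by_cases hb : p.1.1 / 6 = q.1.1 / 6
    · have h2 : extb u (q.1.1 / 6) = extb w (q.1.1 / 6) := by rw [← hb]; exact h1
      have e1 : lp t hm u p = lp t hm w p := Subtype.ext (nx_congr h1)
      have e2 : lp t hm u q = lp t hm w q := Subtype.ext (nx_congr h2)
      simp only [zv, pvec_mk, e1, e2]
    · have key : ∀ (a b : S m t), a.1.1 / 6 ≠ b.1.1 / 6 → ∀ u w : Fin m → Bool,
          lp t hm u a = b → lp t hm w a = b := by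
        intro a b hab u w h
        have h3 : (lp t hm u a).1 = nx m t (extb u) a.1 := rfl
        have h4 : (lp t hm w a).1 = nx m t (extb w) a.1 := rfl
        rw [← h]
        refine Subtype.ext ?_
        rw [h3, h4]
        refine nx_far (mem_S.1 a.2) ?_
        rw [← h3, h]
        exact Ne.symm hab
      have e1 : (lp t hm u p = q) = (lp t hm w p = q) :=
        propext ⟨key p q hb u w, key p q hb w u⟩
      have e2 : (lp t hm u q = p) = (lp t hm w q = p) :=
        propext ⟨key q p (Ne.symm hb) u w, key q p (Ne.symm hb) w u⟩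
      simp only [zv, pvec_mk, e1, e2]

theorem zv_diag (hm : 1 ≤ m) (u : Fin m → Bool) (p : S m t) : zv t hm u s(p, p) = 0 := by
  have h1 : lp t hm u p ≠ p := fun h => nx_ne (mem_S.1 p.2) (congrArg Subtype.val h)
  simp [zv, pvec_mk, h1]

theorem zv_01 (hm : 1 ≤ m) (u : Fin m → Bool) (e : Sym2 (S m t)) :
    zv t hm u e = 0 ∨ zv t hm u e = 1 := by
  induction e using Sym2.ind with
  | _ p q =>
    have h1 : ¬ (lp t hm u p = q ∧ lp t hm u q = p) := by
      rintro ⟨h1, h2⟩
      have h3 : (lp t hm u).symm p = q := by rw [← h2, Equiv.symm_apply_apply]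
      exact nx_ne_pv (U := extb u) (mem_S.1 p.2)
        (congrArg Subtype.val (h1.trans h3.symm))
    simp only [zv, pvec_mk]
    by_cases h2 : lp t hm u p = q <;> by_cases h3 : lp t hm u q = p
    · exact absurd ⟨h2, h3⟩ h1
    · simp [h2, h3]
    · simp [h2, h3]
    · simp [h2, h3]

/-- invariant sets of points as properties of the plane -/
def plane (T : Finset (S m t)) (p : ℤ × ℤ) : Prop := ∃ h : p ∈ S m t, (⟨p, h⟩ : S m t) ∈ T

theorem plane_iff (T : Finset (S m t)) (p : S m t) : plane T p.1 ↔ p ∈ T :=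
  ⟨fun ⟨_, h⟩ => h, fun h => ⟨p.2, h⟩⟩

theorem plane_inv (hm : 1 ≤ m) (u : Fin m → Bool) {T : Finset (S m t)}
    (hT : ∀ p, p ∈ T ↔ lp t hm u p ∈ T) :
    ∀ p, InS m t p → (plane T p ↔ plane T (nx m t (extb u) p)) := by
  intro p hp
  have h1 := plane_iff T ⟨p, mem_S.2 hp⟩
  have h2 := plane_iff T (lp t hm u ⟨p, mem_S.2 hp⟩)
  rw [lp_val] at h2
  dsimp only at h1 h2
  rw [h1, h2]
  exact hT _

theorem mem_o8 (hm : 1 ≤ m) : InS m t (0, 8) := by
  unfold InS; dsimp only; omega

theorem mem_o4 (hm : 1 ≤ m) : InS m t (0, -4) := by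
  unfold InS; dsimp only; omega

/-- the two classes -/
theorem classes (hm : 1 ≤ m) (u : Fin m → Bool) {T : Finset (S m t)}
    (hT : ∀ p, p ∈ T ↔ lp t hm u p ∈ T) (p : S m t) :
    (Up u p.1 → (p ∈ T ↔ plane T (0, 8))) ∧ (¬ Up u p.1 → (p ∈ T ↔ plane T (0, -4))) := by
  have h := inv_loops hm u (plane_inv hm u hT) (mem_S.1 p.2)
  rw [plane_iff] at h
  exact h

/-- the cut condition -/
theorem ex_ge (hm : 1 ≤ m) {u w : Fin m → Bool} (D : Finset (Fin m)) (hD : 2 ≤ D.card)
    (hne : ∀ i ∈ D, u i ≠ w i) {T : Finset (S m t)} (hn : T.Nonempty) (hu : T ≠ univ)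
    (h0 : ex (lp t hm u) T = ∅) : 2 ≤ (ex (lp t hm w) T).card := by
  have hT := inv_of_ex h0
  have hc := classes hm u hT
  have h1 : plane T (0, 8) ↔ ¬ plane T (0, -4) := by
    constructor
    · intro h8 h4
      refine hu (eq_univ_iff_forall.2 fun p => ?_)
      by_cases hp : Up u p.1
      · exact ((hc p).1 hp).2 h8
      · exact ((hc p).2 hp).2 h4
    · intro h4
      obtain ⟨p, hp⟩ := hn
      by_cases hp' : Up u p.1
      · exact ((hc p).1 hp').1 hp
      · exact absurd (((hc p).2 hp').1 hp) h4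
  have hex : ∀ i ∈ D, ∃ e ∈ ex (lp t hm w) T, e.1.1 / 6 = ((i : ℕ) : ℤ) := by
    intro i hi
    have him := i.2
    have hne' := hne i hi
    have hd : ((6 * (i : ℕ) : ℤ)) / 6 = ((i : ℕ) : ℤ) := by omega
    have hd2 : ((6 * (i : ℕ) + 2 : ℤ)) / 6 = ((i : ℕ) : ℤ) := by omega
    have ma : InS m t (6 * (i : ℕ), 4) := by unfold InS; dsimp only; omega
    have ma' : InS m t (6 * (i : ℕ) + 2, 4) := by unfold InS; dsimp only; omega
    have mb : InS m t (6 * (i : ℕ), 0) := by unfold InS; dsimp only; omega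
    have mb' : InS m t (6 * (i : ℕ) + 2, 0) := by unfold InS; dsimp only; omega
    have mv : InS m t (6 * (i : ℕ), 2) := by unfold InS; dsimp only; omega
    have mv' : InS m t (6 * (i : ℕ) + 2, 2) := by unfold InS; dsimp only; omega
    -- the classes of these points
    have ca := (hc ⟨_, mem_S.2 ma⟩).1 (by unfold Up; dsimp only; left; norm_num)
    have ca' := (hc ⟨_, mem_S.2 ma'⟩).1 (by unfold Up; dsimp only; left; norm_num)
    have cb := (hc ⟨_, mem_S.2 mb⟩).2 (by
      unfold Up; dsimp only; rintro (h | h)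
      · omega
      · omega)
    have cb' := (hc ⟨_, mem_S.2 mb'⟩).2 (by
      unfold Up; dsimp only; rintro (h | h)
      · omega
      · omega)
    have cv := hc ⟨_, mem_S.2 mv⟩
    have cv' := hc ⟨_, mem_S.2 mv'⟩
    have uv : Up u (6 * ((i : ℕ) : ℤ), 2) ↔ u i = true := by
      unfold Up
      dsimp only
      rw [hd, extb_nat]
      constructor
      · rintro (h | h)
        · omega
        · exact h.2
      · exact fun h => Or.inr ⟨rfl, h⟩
    have uv' : Up u (6 * ((i : ℕ) : ℤ) + 2, 2) ↔ u i = true := by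
      unfold Up
      dsimp only
      rw [hd2, extb_nat]
      constructor
      · rintro (h | h)
        · omega
        · exact h.2
      · exact fun h => Or.inr ⟨rfl, h⟩
    cases hui : u i with
    | true =>
      have hwi : w i = false := by
        cases h : w i with
        | true => exact absurd (hui.trans h.symm) hne'
        | false => rfl
      have cv1 := cv.1 (uv.2 hui)
      have cv1' := cv'.1 (uv'.2 hui)
      by_cases h8 : plane T (0, 8)
      · refine ⟨⟨_, mem_S.2 mv'⟩, ?_, by dsimp only; omega⟩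
        rw [ex, mem_filter]
        refine ⟨cv1'.2 h8, ?_⟩
        have : lp t hm w ⟨_, mem_S.2 mv'⟩ = ⟨_, mem_S.2 mb'⟩ := by
          refine Subtype.ext ?_
          rw [lp_val]
          unfold nx
          dsimp only
          rw [hd2, extb_nat, hwi]
          simp only [Bool.false_eq_true, if_false, and_false, eq_self_iff_true, and_true, if_true]
          split_ifs <;> first | (exfalso; omega) | rfl
        rw [this]
        exact fun h => (h1.1 h8) (cb'.1 h)
      · have h4 : plane T (0, -4) := by by_contra h; exact h8 (h1.2 h)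
        refine ⟨⟨_, mem_S.2 mb⟩, ?_, by dsimp only; omega⟩
        rw [ex, mem_filter]
        refine ⟨cb.2 h4, ?_⟩
        have : lp t hm w ⟨_, mem_S.2 mb⟩ = ⟨_, mem_S.2 mv⟩ := by
          refine Subtype.ext ?_
          rw [lp_val]
          unfold nx
          dsimp only
          rw [hd, extb_nat, hwi]
          simp only [Bool.false_eq_true, if_false, and_false, eq_self_iff_true, and_true, if_true]
          split_ifs <;> first | (exfalso; omega) | rfl
        rw [this]
        exact fun h => h8 (cv1.1 h)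
    | false =>
      have hwi : w i = true := by
        cases h : w i with
        | false => exact absurd (hui.trans h.symm) hne'
        | true => rfl
      have nu : ¬ u i = true := by rw [hui]; simp
      have cv1 := cv.2 (fun h => nu (uv.1 h))
      have cv1' := cv'.2 (fun h => nu (uv'.1 h))
      by_cases h8 : plane T (0, 8)
      · refine ⟨⟨_, mem_S.2 ma⟩, ?_, by dsimp only; omega⟩
        rw [ex, mem_filter]
        refine ⟨ca.2 h8, ?_⟩
        have : lp t hm w ⟨_, mem_S.2 ma⟩ = ⟨_, mem_S.2 mv⟩ := by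
          refine Subtype.ext ?_
          rw [lp_val]
          unfold nx
          dsimp only
          rw [hd, extb_nat, hwi]
          simp only [Bool.false_eq_true, if_false, and_false, eq_self_iff_true, and_true, if_true]
          split_ifs <;> first | (exfalso; omega) | rfl
        rw [this]
        exact fun h => (h1.1 h8) (cv1.1 h)
      · have h4 : plane T (0, -4) := by by_contra h; exact h8 (h1.2 h)
        refine ⟨⟨_, mem_S.2 mv'⟩, ?_, by dsimp only; omega⟩
        rw [ex, mem_filter]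
        refine ⟨cv1'.2 h4, ?_⟩
        have : lp t hm w ⟨_, mem_S.2 mv'⟩ = ⟨_, mem_S.2 ma'⟩ := by
          refine Subtype.ext ?_
          rw [lp_val]
          unfold nx
          dsimp only
          rw [hd2, extb_nat, hwi]
          simp only [Bool.false_eq_true, if_false, and_false, eq_self_iff_true, and_true, if_true]
          split_ifs <;> first | (exfalso; omega) | rfl
        rw [this]
        exact fun h => h8 (ca'.1 h)
  obtain ⟨i, hi, j, hj, hij⟩ := one_lt_card.1 (by omega : 1 < D.card)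
  obtain ⟨e, he, hei⟩ := hex i hi
  obtain ⟨f, hf, hfj⟩ := hex j hj
  have : 1 < (ex (lp t hm w) T).card := by
    refine one_lt_card.2 ⟨e, he, f, hf, fun h => ?_⟩
    rw [h, hfj] at hei
    exact hij (Fin.ext (by exact_mod_cast hei.symm))
  omega

/-- a class that meets both loops -/
def Mixed {κ : Type} (u : Fin m → Bool) (c : S m t → κ) : Prop :=
  ∃ a b : S m t, Up u a.1 ∧ ¬ Up u b.1 ∧ c a = c b

theorem mixed_of {κ : Type} {u : Fin m → Bool} {c : S m t → κ} {i j : Fin m} (hij : u i ≠ u j)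
    (mi : InS m t (6 * ((i : ℕ) : ℤ), 2)) (mj : InS m t (6 * ((j : ℕ) : ℤ), 2))
    (h : c ⟨_, mem_S.2 mi⟩ = c ⟨_, mem_S.2 mj⟩) : Mixed u c := by
  have uv : ∀ i : Fin m, Up u (6 * ((i : ℕ) : ℤ), 2) ↔ u i = true := by
    intro i
    have hd : ((6 * (i : ℕ) : ℤ)) / 6 = ((i : ℕ) : ℤ) := by omega
    unfold Up
    dsimp only
    rw [hd, extb_nat]
    constructor
    · rintro (h | h)
      · omega
      · exact h.2
    · exact fun h => Or.inr ⟨rfl, h⟩
  cases hi : u i with
  | true =>
    refine ⟨⟨_, mem_S.2 mi⟩, ⟨_, mem_S.2 mj⟩, (uv i).2 hi, fun h' => ?_, h⟩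
    exact hij (hi.trans ((uv j).1 h').symm)
  | false =>
    refine ⟨⟨_, mem_S.2 mj⟩, ⟨_, mem_S.2 mi⟩, (uv j).2 ?_, fun h' => ?_, h.symm⟩
    · cases hj : u j with
      | true => rfl
      | false => exact absurd (hi.trans hj.symm) hij
    · have := (uv i).1 h'
      rw [hi] at this
      simp at this

/-- the contracted sum of a mixed pair of loops is that of a tour -/
theorem csum_mixed (hm : 1 ≤ m) {κ : Type} {u : Fin m → Bool} {c : S m t → κ} (hx : Mixed u c)
    (f : κ → κ → ℝ) {b : ℝ}
    (hb : ∀ σ : Equiv.Perm (S m t), OneCycle σ → ∑ p, f (c p) (c (σ p)) ≤ b) :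
    ∑ p, f (c p) (c (lp t hm u p)) ≤ b := by
  obtain ⟨a, d, ha, hd, h⟩ := hx
  rw [← sum_merge (lp t hm u) c f h]
  refine hb _ ?_
  refine merge (fun p => Up u p.1) (fun p => ?_) (fun T hT p q hpq => ?_) ha hd
  · rw [lp_val]; exact up_nx u (mem_S.1 p.2)
  · have h1 := classes hm u hT p
    have h2 := classes hm u hT q
    by_cases hp : Up u p.1
    · rw [h1.1 hp, h2.1 (hpq.1 hp)]
    · rw [h1.2 hp, h2.2 (fun h' => hp (hpq.2 h'))]

theorem sum_zv (hm : 1 ≤ m) (u : Fin m → Bool) (d : S m t → S m t → ℝ)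
    (hd : ∀ p q, d p q = d q p) :
    ∑ p, ∑ q, d p q * (zv t hm u s(p, q) : ℝ) = 2 * ∑ p, d p (lp t hm u p) :=
  sum_d_pvec _ d hd

/-- a set that avoids the rails of one loop is small -/
theorem avoid_card (J : Finset (S m t)) (y0 y1 : ℤ) (h0 : y0 % 2 = 0) (h1 : y1 % 2 = 0)
    (hy : (y0 = 8 ∧ y1 = 4) ∨ (y0 = 0 ∧ y1 = -4))
    (hJ : ∀ p ∈ J, p.1.2 ≠ y0 ∧ p.1.2 ≠ y1) : J.card + 6 * m ≤ (S m t).card := by
  classical
  have hin : ∀ x : Fin (3 * m) × Bool, InS m t (2 * ((x.1 : ℕ) : ℤ), if x.2 then y0 else y1) := by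
    intro x
    have := x.1.2
    unfold InS
    cases x.2 <;> simp only [Bool.false_eq_true, if_false, if_true] <;>
      rcases hy with ⟨rfl, rfl⟩ | ⟨rfl, rfl⟩ <;> omega
  set g : Fin (3 * m) × Bool → S m t := fun x => ⟨_, mem_S.2 (hin x)⟩ with hg
  have ginj : Function.Injective g := by
    rintro ⟨a, b⟩ ⟨a', b'⟩ h
    have h2 := congrArg Subtype.val h
    simp only [hg, Prod.mk.injEq] at h2
    obtain ⟨h3, h4⟩ := h2
    have h5 : a = a' := Fin.ext (by omega)
    have h6 : b = b' := by
      cases b <;> cases b' <;> simp only [Bool.false_eq_true, if_false, if_true] at h4 <;>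
        first | rfl | (exfalso; omega)
    rw [h5, h6]
  have h2 : (univ.image g).card = 6 * m := by
    rw [card_image_of_injective _ ginj, card_univ, Fintype.card_prod, Fintype.card_fin,
      Fintype.card_bool]
    ring
  have h3 : Disjoint J (univ.image g) := by
    rw [disjoint_left]
    intro p hp hp'
    rw [mem_image] at hp'
    obtain ⟨x, -, rfl⟩ := hp'
    have := hJ _ hp
    simp only [hg] at this
    cases hx : x.2 with
    | false => rw [hx] at this; simp at this
    | true => rw [hx] at this; simp at this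
  have h4 := card_le_univ (J ∪ univ.image g)
  rw [card_union_of_disjoint h3, h2, Fintype.card_coe] at h4
  exact h4

/-- a large class meets both loops -/
theorem mixed_of_large {κ : Type} [DecidableEq κ] (u : Fin m → Bool) (c : S m t → κ) (j : κ)
    (h : (S m t).card < (univ.filter fun p => c p = j).card + 6 * m) : Mixed u c := by
  classical
  have h1 : ∃ p ∈ univ.filter fun p => c p = j, 4 ≤ p.1.2 := by
    by_contra hcon
    push Not at hcon
    have := avoid_card (univ.filter fun p => c p = j) 8 4 (by norm_num) (by norm_num)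
      (Or.inl ⟨rfl, rfl⟩) (fun p hp => by have := hcon p hp; omega)
    omega
  have h2 : ∃ p ∈ univ.filter fun p => c p = j, p.1.2 ≤ 0 := by
    by_contra hcon
    push Not at hcon
    have := avoid_card (univ.filter fun p => c p = j) 0 (-4) (by norm_num) (by norm_num)
      (Or.inr ⟨rfl, rfl⟩) (fun p hp => by have := hcon p hp; omega)
    omega
  obtain ⟨a, ha, ha'⟩ := h1
  obtain ⟨b, hb, hb'⟩ := h2
  rw [mem_filter] at ha hb
  refine ⟨a, b, Or.inl ha', fun h => ?_, ha.2.trans hb.2.symm⟩
  unfold Up at h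
  omega

/-- middle points of far pairs satisfy all inequalities of contractions to few classes, or with a
large class -/
theorem contracted (hm : 1 ≤ m) {κ : Type} [DecidableEq κ] (u : Fin m → Bool)
    (T : Finset (Fin m)) (c : S m t → κ) (f : κ → κ → ℝ)
    (hT : (univ.image c).card + 1 ≤ T.card ∨
      ∃ j, (S m t).card < (univ.filter fun p => c p = j).card + 6 * m)
    (hf : ∀ i j, f i j = f j i)
    {b : ℝ} (hb : ∀ σ : Equiv.Perm (S m t), OneCycle σ → ∑ p, f (c p) (c (σ p)) ≤ b) :
    (∑ p, ∑ q, f (c p) (c q) * mid (zv t hm) u (fl u T) s(p, q)) / 2 ≤ b := by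
  have two : ∀ v w : Fin m → Bool, Mixed v c → Mixed w c →
      (∀ e, zv t hm u e + zv t hm (fl u T) e = zv t hm v e + zv t hm w e) →
      (∑ p, ∑ q, f (c p) (c q) * mid (zv t hm) u (fl u T) s(p, q)) / 2 ≤ b := by
    intro v w hv hw he
    have h1 := csum_mixed hm hv f hb
    have h2 := csum_mixed hm hw f hb
    have h3 := sum_zv hm v (fun p q => f (c p) (c q)) (fun p q => hf _ _)
    have h4 := sum_zv hm w (fun p q => f (c p) (c q)) (fun p q => hf _ _)
    have h5 : ∑ p, ∑ q, f (c p) (c q) * mid (zv t hm) u (fl u T) s(p, q) =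
        (∑ p, ∑ q, f (c p) (c q) * (zv t hm v s(p, q) : ℝ) +
          ∑ p, ∑ q, f (c p) (c q) * (zv t hm w s(p, q) : ℝ)) / 2 := by
      rw [← sum_add_distrib, sum_div]
      refine sum_congr rfl fun p _ => ?_
      rw [← sum_add_distrib, sum_div]
      refine sum_congr rfl fun q _ => ?_
      have h6 : (zv t hm u s(p, q) : ℝ) + zv t hm (fl u T) s(p, q) =
          zv t hm v s(p, q) + zv t hm w s(p, q) := by exact_mod_cast he s(p, q)
      unfold mid
      rw [h6]; ring
    rw [h5, h3, h4]
    linarith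
  rcases hT with hT | ⟨j, hj⟩
  swap
  · exact two u (fl u T) (mixed_of_large u c j hj) (mixed_of_large _ c j hj) fun _ => rfl
  have hmem : ∀ i : Fin m, InS m t (6 * ((i : ℕ) : ℤ), 2) := by
    intro i; have := i.2; unfold InS; dsimp only; omega
  obtain ⟨i, hi, j, hj, hij, hc⟩ := exists_ne_map_eq_of_card_lt_of_maps_to
    (s := T) (t := univ.image c) (f := fun i => c ⟨_, mem_S.2 (hmem i)⟩)
    (by omega) (fun _ _ => mem_coe.2 (mem_image_of_mem _ (mem_univ _)))
  by_cases hb2 : u i = u j
  · refine two (fl u {i}) (fl u (T.erase i)) ?_ ?_ (fun e => para (oneBit_zv hm) u T hi e)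
    · refine mixed_of (i := i) (j := j) ?_ (hmem i) (hmem j) hc
      simp only [fl, mem_singleton, if_true, Ne.symm hij, if_false, ← hb2]
      cases u i <;> simp
    · refine mixed_of (i := i) (j := j) ?_ (hmem i) (hmem j) hc
      simp only [fl, mem_erase, ne_eq, not_true_eq_false, false_and, if_false, Ne.symm hij,
        not_false_eq_true, true_and, hj, if_true, ← hb2]
      cases u i <;> simp
  · refine two u (fl u T) ?_ ?_ (fun _ => rfl)
    · exact mixed_of hb2 (hmem i) (hmem j) hc
    · refine mixed_of (i := i) (j := j) ?_ (hmem i) (hmem j) hc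
      simp only [fl, hi, hj, if_true]
      intro h
      exact hb2 (by simpa using h)

end Pool.Agent.T9h88.BB
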